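import Pool.Agent.RH88.DepM

/-!
# Predictable blocks

As RS88/PredS38 (`pred_aux38`), with blocks. Strong induction on `v - u` (for all `u ≤ v` with `v - u ≤ n`), for an event
`E` that depends on the coordinates `< u`:
`(mz z).real (E ∩ {N ≤ #T on [u,v), #(T ∧ G) on [u,v) < t}) ≤ (mz z).real E * (2 ^ t * (1 - p/2) ^ N)`.
Peel off `u`. On `E ∩ {not T u}` (depends on the coordinates `< u + 1`) use the induction hypothesis for `u + 1`. On
`E ∩ {T u}` there is no trial in `(u, u + l)` (`hd`), so the counts on `[u, v)` are those on `[u + l, v)` plus `1` (resp. plus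
`1` if `G u`): use the induction hypothesis for `u + l` (if `u + l ≥ v` the interval is empty, the statement is trivial as in
the base case) and the events `E ∩ {T u ∧ G u}`, `E ∩ {T u ∧ ¬ G u}`, which depend on the coordinates `< u + l` (`hG`, `hT`).
With `a = P(E ∩ T)`, `g = P(E ∩ T ∩ G) ≥ p a`: `g * 2^(t-1) (1-p/2)^(N-1) + (a-g) * 2^t (1-p/2)^(N-1) ≤ a * 2^t (1-p/2)^N`.
-/

set_option autoImplicit false

namespace Pool.Agent.RH88

open MeasureTheory Filter Pool.Agent.RS88

open Classical in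
theorem blk_aux50 (z : ℕ → ℕ) {p : ℝ} (hp0 : 0 ≤ p) (hp1 : p ≤ 1) (l v : ℕ) (hl : 1 ≤ l)
    (T G : (ℕ → Bool) → ℕ → Prop)
    (hT : ∀ y, Dep ((Finset.range y : Finset ℕ) : Set ℕ) {ω | T ω y})
    (hG : ∀ y, Dep ((Finset.range (y + l) : Finset ℕ) : Set ℕ) {ω | T ω y ∧ G ω y})
    (hd : ∀ ω y y', T ω y → T ω y' → y < y' → y + l ≤ y') (n : ℕ) :
    ∀ u : ℕ, v - u ≤ n → (∀ y, u ≤ y → y < v → ∀ E : Set (ℕ → Bool),
      Dep ((Finset.range y : Finset ℕ) : Set ℕ) E → (∀ ω ∈ E, T ω y) →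
      p * (mz z).real E ≤ (mz z).real (E ∩ {ω | G ω y})) → ∀ (N t : ℕ) (E : Set (ℕ → Bool)),
    Dep ((Finset.range u : Finset ℕ) : Set ℕ) E →
    (mz z).real (E ∩ {ω | N ≤ ((Finset.Ico u v).filter (fun y => T ω y)).card ∧
      ((Finset.Ico u v).filter (fun y => T ω y ∧ G ω y)).card < t}) ≤
      (mz z).real E * (2 ^ t * (1 - p / 2) ^ N) := by
  have hc0 : 0 < 1 - p / 2 := by linarith
  induction n with
  | zero =>
    intro u huv hp N t E hE
    have hIco : Finset.Ico u v = ∅ := Finset.Ico_eq_empty (by omega)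
    rcases Nat.eq_zero_or_pos N with rfl | hN
    · refine (measureReal_mono Set.inter_subset_left).trans ?_
      have h2 : (1 : ℝ) ≤ 2 ^ t := one_le_pow₀ (by norm_num)
      calc (mz z).real E = (mz z).real E * 1 := (mul_one _).symm
        _ ≤ (mz z).real E * (2 ^ t * (1 - p / 2) ^ 0) := by
          apply mul_le_mul_of_nonneg_left _ measureReal_nonneg
          simpa using h2
    · have : E ∩ {ω | N ≤ ((Finset.Ico u v).filter (fun y => T ω y)).card ∧
          ((Finset.Ico u v).filter (fun y => T ω y ∧ G ω y)).card < t} = ∅ := by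
        ext ω
        simp only [hIco, Finset.filter_empty, Finset.card_empty, Set.mem_inter_iff, Set.mem_ofPred_eq,
          Set.mem_empty_iff_false, iff_false, not_and]
        intro _ h
        omega
      rw [this, measureReal_empty]
      positivity
  | succ n ih =>
    intro u huv hp N t E hE
    rcases Nat.eq_zero_or_pos N with rfl | hN
    · refine (measureReal_mono Set.inter_subset_left).trans ?_
      have h2 : (1 : ℝ) ≤ 2 ^ t := one_le_pow₀ (by norm_num)
      calc (mz z).real E = (mz z).real E * 1 := (mul_one _).symm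
        _ ≤ (mz z).real E * (2 ^ t * (1 - p / 2) ^ 0) := by
          apply mul_le_mul_of_nonneg_left _ measureReal_nonneg
          simpa using h2
    rcases Nat.eq_zero_or_pos t with rfl | ht
    · have : E ∩ {ω | N ≤ ((Finset.Ico u v).filter (fun y => T ω y)).card ∧
          ((Finset.Ico u v).filter (fun y => T ω y ∧ G ω y)).card < 0} = ∅ := by
        ext ω
        simp
      rw [this, measureReal_empty]
      positivity
    rcases Nat.lt_or_ge u v with huv' | huv'
    swap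
    · exact ih u (by omega) hp N t E hE
    obtain ⟨N, rfl⟩ := Nat.exists_eq_succ_of_ne_zero hN.ne'
    obtain ⟨t, rfl⟩ := Nat.exists_eq_succ_of_ne_zero ht.ne'
    simp only [Nat.succ_eq_add_one]
    set Tu : Set (ℕ → Bool) := {ω | T ω u} with hTu
    set TG : Set (ℕ → Bool) := {ω | T ω u ∧ G ω u} with hTG
    set R : ℕ → ℕ → ℕ → Set (ℕ → Bool) := fun w N t =>
      {ω | N ≤ ((Finset.Ico w v).filter (fun y => T ω y)).card ∧
        ((Finset.Ico w v).filter (fun y => T ω y ∧ G ω y)).card < t} with hR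
    have hfil : ∀ ω, T ω u → (Finset.Ico u v).filter (fun y => T ω y) =
        insert u ((Finset.Ico (u + l) v).filter (fun y => T ω y)) := by
      intro ω hω
      ext y
      simp only [Finset.mem_filter, Finset.mem_Ico, Finset.mem_insert]
      constructor
      · rintro ⟨⟨h1, h2⟩, h3⟩
        rcases Nat.eq_or_lt_of_le h1 with h | h
        · exact Or.inl h.symm
        · exact Or.inr ⟨⟨hd ω u y hω h3 h, h2⟩, h3⟩
      · rintro (h | ⟨⟨h1, h2⟩, h3⟩)
        · rw [h]
          exact ⟨⟨le_rfl, huv'⟩, hω⟩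
        · exact ⟨⟨by omega, h2⟩, h3⟩
    have hfil2 : ∀ ω, T ω u → G ω u → (Finset.Ico u v).filter (fun y => T ω y ∧ G ω y) =
        insert u ((Finset.Ico (u + l) v).filter (fun y => T ω y ∧ G ω y)) := by
      intro ω hω hg
      ext y
      simp only [Finset.mem_filter, Finset.mem_Ico, Finset.mem_insert]
      constructor
      · rintro ⟨⟨h1, h2⟩, h3⟩
        rcases Nat.eq_or_lt_of_le h1 with h | h
        · exact Or.inl h.symm
        · exact Or.inr ⟨⟨hd ω u y hω h3.1 h, h2⟩, h3⟩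
      · rintro (h | ⟨⟨h1, h2⟩, h3⟩)
        · rw [h]
          exact ⟨⟨le_rfl, huv'⟩, hω, hg⟩
        · exact ⟨⟨by omega, h2⟩, h3⟩
    have hni : ∀ ω, u ∉ (Finset.Ico (u + l) v).filter (fun y => T ω y) := by
      intro ω h
      have := (Finset.mem_Ico.1 (Finset.mem_filter.1 h).1).1
      omega
    have hni2 : ∀ ω, u ∉ (Finset.Ico (u + l) v).filter (fun y => T ω y ∧ G ω y) := by
      intro ω h
      have := (Finset.mem_Ico.1 (Finset.mem_filter.1 h).1).1
      omega
    have hsub : E ∩ {ω | N + 1 ≤ ((Finset.Ico u v).filter (fun y => T ω y)).card ∧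
        ((Finset.Ico u v).filter (fun y => T ω y ∧ G ω y)).card < t + 1} ⊆
        ((E ∩ Tu ∩ TG) ∩ R (u + l) N t) ∪ (((E ∩ Tu ∩ TGᶜ) ∩ R (u + l) N (t + 1)) ∪
          ((E ∩ Tuᶜ) ∩ R (u + 1) (N + 1) (t + 1))) := by
      rintro ω ⟨hωE, h1, h2⟩
      by_cases hTω : T ω u
      · rw [hfil ω hTω, Finset.card_insert_of_notMem (hni ω)] at h1
        by_cases hω : G ω u
        · left
          rw [hfil2 ω hTω hω, Finset.card_insert_of_notMem (hni2 ω)] at h2
          exact ⟨⟨⟨hωE, hTω⟩, hTω, hω⟩, by omega, by omega⟩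
        · right; left
          have hle : ((Finset.Ico (u + l) v).filter (fun y => T ω y ∧ G ω y)).card ≤
              ((Finset.Ico u v).filter (fun y => T ω y ∧ G ω y)).card := by
            apply Finset.card_le_card
            apply Finset.filter_subset_filter
            intro y hy
            rw [Finset.mem_Ico] at hy ⊢
            omega
          exact ⟨⟨⟨hωE, hTω⟩, fun h => hω h.2⟩, by omega, by omega⟩
      · right; right
        have e1 : (Finset.Ico u v).filter (fun y => T ω y) =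
            (Finset.Ico (u + 1) v).filter (fun y => T ω y) := by
          ext y
          simp only [Finset.mem_filter, Finset.mem_Ico]
          constructor
          · rintro ⟨⟨g1, g2⟩, g3⟩
            rcases Nat.eq_or_lt_of_le g1 with h | h
            · exact absurd (h ▸ g3) hTω
            · exact ⟨⟨h, g2⟩, g3⟩
          · rintro ⟨⟨g1, g2⟩, g3⟩
            exact ⟨⟨by omega, g2⟩, g3⟩
        have hle : ((Finset.Ico (u + 1) v).filter (fun y => T ω y ∧ G ω y)).card ≤
            ((Finset.Ico u v).filter (fun y => T ω y ∧ G ω y)).card := by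
          apply Finset.card_le_card
          apply Finset.filter_subset_filter
          intro y hy
          rw [Finset.mem_Ico] at hy ⊢
          omega
        rw [e1] at h1
        exact ⟨⟨hωE, hTω⟩, h1, by omega⟩
    have hsubr : ((Finset.range u : Finset ℕ) : Set ℕ) ⊆ ((Finset.range (u + 1) : Finset ℕ) : Set ℕ) := by
      intro i hi
      simp only [Finset.coe_range, Set.mem_Iio] at hi ⊢
      omega
    have hsubl : ((Finset.range u : Finset ℕ) : Set ℕ) ⊆ ((Finset.range (u + l) : Finset ℕ) : Set ℕ) := by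
      intro i hi
      simp only [Finset.coe_range, Set.mem_Iio] at hi ⊢
      omega
    have hET : Dep ((Finset.range u : Finset ℕ) : Set ℕ) (E ∩ Tu) := hE.inter38 (hT u)
    have i1 := ih (u + l) (by omega) (fun y h1 h2 => hp y (by omega) h2) N t _
      ((hET.mono38 hsubl).inter38 (hG u))
    have i2 := ih (u + l) (by omega) (fun y h1 h2 => hp y (by omega) h2) N (t + 1) _
      ((hET.mono38 hsubl).inter38 (hG u).compl38)
    have i3 := ih (u + 1) (by omega) (fun y h1 h2 => hp y (by omega) h2) (N + 1) (t + 1) _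
      ((hE.inter38 (hT u).compl38).mono38 hsubr)
    have hadd : (mz z).real (E ∩ Tu) + (mz z).real (E ∩ Tuᶜ) = (mz z).real E := by
      rw [← Set.sdiff_eq]
      exact measureReal_inter_add_sdiff (hT u).meas
    have hadd2 : (mz z).real (E ∩ Tu ∩ TG) + (mz z).real (E ∩ Tu ∩ TGᶜ) =
        (mz z).real (E ∩ Tu) := by
      rw [← Set.sdiff_eq]
      exact measureReal_inter_add_sdiff (hG u).meas
    have hg : p * (mz z).real (E ∩ Tu) ≤ (mz z).real (E ∩ Tu ∩ TG) := by
      have h1 := hp u le_rfl huv' (E ∩ Tu) hET (fun ω hω => hω.2)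
      have h2 : E ∩ Tu ∩ {ω | G ω u} = E ∩ Tu ∩ TG := by
        ext ω
        constructor
        · rintro ⟨⟨g1, g2⟩, g3⟩
          exact ⟨⟨g1, g2⟩, g2, g3⟩
        · rintro ⟨⟨g1, g2⟩, g3⟩
          exact ⟨⟨g1, g2⟩, g3.2⟩
      rw [h2] at h1
      exact h1
    have hb : (mz z).real (E ∩ Tu ∩ TG) * (2 ^ t * (1 - p / 2) ^ N) +
        (mz z).real (E ∩ Tu ∩ TGᶜ) * (2 ^ (t + 1) * (1 - p / 2) ^ N) ≤
        (mz z).real (E ∩ Tu) * (2 ^ (t + 1) * (1 - p / 2) ^ (N + 1)) := by
      have e0 : (mz z).real (E ∩ Tu ∩ TGᶜ) =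
          (mz z).real (E ∩ Tu) - (mz z).real (E ∩ Tu ∩ TG) := by linarith
      have h0 : (0 : ℝ) ≤ 2 ^ (t + 1) * (1 - p / 2) ^ N := by positivity
      have e1 : (mz z).real (E ∩ Tu ∩ TG) * (2 ^ t * (1 - p / 2) ^ N) +
        ((mz z).real (E ∩ Tu) - (mz z).real (E ∩ Tu ∩ TG)) * (2 ^ (t + 1) * (1 - p / 2) ^ N) =
        ((mz z).real (E ∩ Tu) - (mz z).real (E ∩ Tu ∩ TG) / 2) *
          (2 ^ (t + 1) * (1 - p / 2) ^ N) := by ring
      have e2 : (mz z).real (E ∩ Tu) * (2 ^ (t + 1) * (1 - p / 2) ^ (N + 1)) =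
        ((mz z).real (E ∩ Tu) - p * (mz z).real (E ∩ Tu) / 2) *
          (2 ^ (t + 1) * (1 - p / 2) ^ N) := by ring
      rw [e0, e1, e2]
      exact mul_le_mul_of_nonneg_right (by linarith) h0
    calc (mz z).real (E ∩ {ω | N + 1 ≤ ((Finset.Ico u v).filter (fun y => T ω y)).card ∧
        ((Finset.Ico u v).filter (fun y => T ω y ∧ G ω y)).card < t + 1})
        ≤ (mz z).real (((E ∩ Tu ∩ TG) ∩ R (u + l) N t) ∪
          (((E ∩ Tu ∩ TGᶜ) ∩ R (u + l) N (t + 1)) ∪
            ((E ∩ Tuᶜ) ∩ R (u + 1) (N + 1) (t + 1)))) := measureReal_mono hsub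
      _ ≤ (mz z).real ((E ∩ Tu ∩ TG) ∩ R (u + l) N t) +
          ((mz z).real ((E ∩ Tu ∩ TGᶜ) ∩ R (u + l) N (t + 1)) +
            (mz z).real ((E ∩ Tuᶜ) ∩ R (u + 1) (N + 1) (t + 1))) :=
          (measureReal_union_le _ _).trans (add_le_add_right (measureReal_union_le _ _) _)
      _ ≤ (mz z).real (E ∩ Tu ∩ TG) * (2 ^ t * (1 - p / 2) ^ N) +
          ((mz z).real (E ∩ Tu ∩ TGᶜ) * (2 ^ (t + 1) * (1 - p / 2) ^ N) +
            (mz z).real (E ∩ Tuᶜ) * (2 ^ (t + 1) * (1 - p / 2) ^ (N + 1))) :=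
          add_le_add i1 (add_le_add i2 i3)
      _ ≤ (mz z).real (E ∩ Tu) * (2 ^ (t + 1) * (1 - p / 2) ^ (N + 1)) +
            (mz z).real (E ∩ Tuᶜ) * (2 ^ (t + 1) * (1 - p / 2) ^ (N + 1)) := by linarith
      _ = (mz z).real E * (2 ^ (t + 1) * (1 - p / 2) ^ (N + 1)) := by rw [← hadd]; ring

open Classical in
theorem blk (z : ℕ → ℕ) {p : ℝ} (hp0 : 0 ≤ p) (hp1 : p ≤ 1) (l u v : ℕ) (hl : 1 ≤ l)
    (T G : (ℕ → Bool) → ℕ → Prop)
    (hT : ∀ y, Dep ((Finset.range y : Finset ℕ) : Set ℕ) {ω | T ω y})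
    (hG : ∀ y, Dep ((Finset.range (y + l) : Finset ℕ) : Set ℕ) {ω | T ω y ∧ G ω y})
    (hd : ∀ ω y y', T ω y → T ω y' → y < y' → y + l ≤ y')
    (hp : ∀ y, u ≤ y → y < v → ∀ E : Set (ℕ → Bool),
      Dep ((Finset.range y : Finset ℕ) : Set ℕ) E → (∀ ω ∈ E, T ω y) →
      p * (mz z).real E ≤ (mz z).real (E ∩ {ω | G ω y})) (N t : ℕ) :
    (mz z).real {ω | N ≤ ((Finset.Ico u v).filter (fun y => T ω y)).card ∧
      ((Finset.Ico u v).filter (fun y => T ω y ∧ G ω y)).card < t} ≤
      2 ^ t * (1 - p / 2) ^ N := by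
  have h := blk_aux50 z hp0 hp1 l v hl T G hT hG hd (v - u) u le_rfl hp N t Set.univ
    (fun _ _ _ => Iff.rfl)
  rwa [Set.univ_inter, probReal_univ, one_mul] at h

end Pool.Agent.RH88
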