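import Pool.Agent.RH88.Mean
import Pool.Agent.RH88.HoefM
import Pool.Agent.RG88.ConcN

/-!
# Concentration (growing sieving limit)

As RG88/ConcZ (`ConcAt` has `v ≤ 2^(1000 f)`): if `ConcAt f ω` fails then, by `mean_z`, for some `u < v` the deviation from the mean is at least
`t = 1/(2 f²) * (v - u)/log v`; `hoefz`: probability at most `2 exp (-2 (v-u)/(4 f⁴ log² v))`, `log v ≤ 1000 f`. Then
`RG88.concz_num` and Borel-Cantelli.
-/

set_option autoImplicit false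

namespace Pool.Agent.RH88

open MeasureTheory Filter Pool.Agent.RS88
open Pool.Agent.RG88 (Tz Gz Rt Rg Kz Badz)

/-- the bad event of the pair `u, v` -/
def concz_bad (z : ℕ → ℕ) (f u v : ℕ) : Set (ℕ → Bool) :=
  {ω | 1 / (2 * (f : ℝ) ^ 2) * (((v : ℝ) - u) / Real.log v) ≤
    |((ct ω v : ℝ) - ct ω u) - ∑ m ∈ Finset.Ico u v, pz z m|}

/-- the probability of a bad event -/
theorem concz_prob (z : ℕ → ℕ) {f u v : ℕ} (hf : 1 ≤ f) (huv : u < v) (hv : v ≤ 2 ^ (1000 * f))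
    (hu : 3 ≤ u) (hd : 2 ^ (f / 8) ≤ v - u) :
    (mz z).real (concz_bad z f u v) ≤
      2 * Real.exp (-(2 * 2 ^ (f / 8) / (4 * 10 ^ 6 * (f : ℝ) ^ 6))) := by
  have hf0 : (0 : ℝ) < f := by exact_mod_cast hf
  have huv' : (0 : ℝ) < (v : ℝ) - u := by
    have : (u : ℝ) < v := by exact_mod_cast huv
    linarith
  have hu3 : (3 : ℝ) ≤ u := by exact_mod_cast hu
  have hv3 : (3 : ℝ) ≤ v := by linarith
  have hlv : 1 ≤ Real.log v := log_three.trans (Real.log_le_log (by norm_num) hv3)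
  have hlv2 : Real.log v ≤ 1000 * f := by
    have h1 : (v : ℝ) ≤ 2 ^ (1000 * f) := by exact_mod_cast hv
    have h2 := Real.log_le_log (by linarith) h1
    rw [Real.log_pow] at h2
    have h3 : Real.log 2 ≤ 1 := by
      have := Real.log_le_sub_one_of_pos (show (0 : ℝ) < 2 by norm_num)
      linarith
    push_cast at h2
    have h4 : 1000 * (f : ℝ) * Real.log 2 ≤ 1000 * f * 1 :=
      mul_le_mul_of_nonneg_left h3 (by positivity)
    linarith
  have hd' : (2 : ℝ) ^ (f / 8) ≤ (v : ℝ) - u := by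
    have h1 : ((2 ^ (f / 8) : ℕ) : ℝ) ≤ ((v - u : ℕ) : ℝ) := by exact_mod_cast hd
    rw [Nat.cast_sub huv.le] at h1
    push_cast at h1
    exact h1
  have h1 := hoefz z u v huv (1 / (2 * (f : ℝ) ^ 2) * (((v : ℝ) - u) / Real.log v))
    (by positivity)
  refine (show (mz z).real (concz_bad z f u v) ≤ _ from h1).trans ?_
  refine mul_le_mul_of_nonneg_left (Real.exp_le_exp.2 (neg_le_neg ?_)) (by norm_num)
  have h2 : 2 * (1 / (2 * (f : ℝ) ^ 2) * (((v : ℝ) - u) / Real.log v)) ^ 2 / ((v : ℝ) - u) =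
      2 * ((v : ℝ) - u) / (4 * ((f : ℝ) ^ 4 * Real.log v ^ 2)) := by
    field_simp
    ring
  rw [h2]
  have h3 : 4 * ((f : ℝ) ^ 4 * Real.log v ^ 2) ≤ 4 * 10 ^ 6 * (f : ℝ) ^ 6 := by
    have h4 : Real.log v ^ 2 ≤ (1000 * f) ^ 2 := pow_le_pow_left₀ (by linarith) hlv2 2
    calc 4 * ((f : ℝ) ^ 4 * Real.log v ^ 2) ≤ 4 * ((f : ℝ) ^ 4 * (1000 * f) ^ 2) :=
          mul_le_mul_of_nonneg_left (mul_le_mul_of_nonneg_left h4 (by positivity)) (by norm_num)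
      _ = 4 * 10 ^ 6 * (f : ℝ) ^ 6 := by ring
  have h5 : (0 : ℝ) < 4 * ((f : ℝ) ^ 4 * Real.log v ^ 2) := by positivity
  exact div_le_div₀ (by positivity) (mul_le_mul_of_nonneg_left hd' (by norm_num)) h5 h3

/-- the failure of `ConcAt` -/
theorem concz_sub (z : ℕ → ℕ) {f : ℕ} (hf : 16 ≤ f)
    (hm : ∀ u v : ℕ, u < v → v ≤ 2 ^ (1000 * f) → 2 ^ (f / 8) ≤ u → 2 ^ (f / 8) ≤ v - u →
      (1 - 1 / (2 * (f : ℝ) ^ 2)) * (((v : ℝ) - u) / Real.log v) ≤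
          ∑ m ∈ Finset.Ico u v, pz z m ∧
        ∑ m ∈ Finset.Ico u v, pz z m ≤
          (1 + 1 / (2 * (f : ℝ) ^ 2)) * (((v : ℝ) - u) / Real.log u)) :
    {ω | ¬ ConcAt f ω} ⊆ ⋃ p ∈ (Finset.range (2 ^ (1000 * f) + 1) ×ˢ
      Finset.range (2 ^ (1000 * f) + 1)).filter (fun p => p.1 < p.2 ∧ 2 ^ (f / 8) ≤ p.1 ∧
        2 ^ (f / 8) ≤ p.2 - p.1), concz_bad z f p.1 p.2 := by
  intro ω hω
  have hω' : ¬ ConcAt f ω := hω
  unfold ConcAt at hω'
  push Not at hω'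
  obtain ⟨u, v, huv, hv, hu, hd, h⟩ := hω'
  rw [Set.mem_iUnion₂]
  refine ⟨(u, v), ?_, ?_⟩
  · rw [Finset.mem_filter, Finset.mem_product, Finset.mem_range, Finset.mem_range]
    exact ⟨⟨by show u < _; omega, by show v < _; omega⟩, huv, hu, hd⟩
  · have h4 : 2 ^ 2 ≤ 2 ^ (f / 8) := Nat.pow_le_pow_right (by norm_num) (by omega)
    have hu3 : 3 ≤ u := by omega
    have hu3' : (3 : ℝ) ≤ u := by exact_mod_cast hu3
    have huv' : (u : ℝ) < v := by exact_mod_cast huv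
    have hlu : 1 ≤ Real.log u := log_three.trans (Real.log_le_log (by norm_num) hu3')
    have hluv : Real.log u ≤ Real.log v := Real.log_le_log (by linarith) huv'.le
    obtain ⟨m1, m2⟩ := hm u v huv hv hu hd
    have hf0 : (0 : ℝ) < f := by exact_mod_cast (by omega : 0 < f)
    have hq : 0 ≤ 1 / (2 * (f : ℝ) ^ 2) := by positivity
    have hq2 : 1 / (f : ℝ) ^ 2 = 1 / (2 * (f : ℝ) ^ 2) + 1 / (2 * (f : ℝ) ^ 2) := by
      field_simp
      norm_num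
    have hle : ((v : ℝ) - u) / Real.log v ≤ ((v : ℝ) - u) / Real.log u :=
      div_le_div_of_nonneg_left (by linarith) (by linarith) hluv
    have hle2 := mul_le_mul_of_nonneg_left hle hq
    show 1 / (2 * (f : ℝ) ^ 2) * (((v : ℝ) - u) / Real.log v) ≤
      |((ct ω v : ℝ) - ct ω u) - ∑ m ∈ Finset.Ico u v, pz z m|
    by_cases hc : (1 - 1 / (f : ℝ) ^ 2) * (((v : ℝ) - u) / Real.log v) ≤ (ct ω v : ℝ) - ct ω u
    · have h5 := h hc
      refine le_trans ?_ (le_abs_self _)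
      rw [hq2] at h5
      linarith
    · rw [not_le] at hc
      refine le_trans ?_ (neg_le_abs _)
      rw [hq2] at hc
      linarith

theorem concz_real (z : ℕ → ℕ) {f : ℕ} (hf : 16 ≤ f)
    (hm : ∀ u v : ℕ, u < v → v ≤ 2 ^ (1000 * f) → 2 ^ (f / 8) ≤ u → 2 ^ (f / 8) ≤ v - u →
      (1 - 1 / (2 * (f : ℝ) ^ 2)) * (((v : ℝ) - u) / Real.log v) ≤
          ∑ m ∈ Finset.Ico u v, pz z m ∧
        ∑ m ∈ Finset.Ico u v, pz z m ≤
          (1 + 1 / (2 * (f : ℝ) ^ 2)) * (((v : ℝ) - u) / Real.log u)) :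
    (mz z).real {ω | ¬ ConcAt f ω} ≤ (2 : ℝ) ^ (2001 * f) *
      Real.exp (-(2 * 2 ^ (f / 8) / (4 * 10 ^ 6 * (f : ℝ) ^ 6))) := by
  set E : ℝ := Real.exp (-(2 * 2 ^ (f / 8) / (4 * 10 ^ 6 * (f : ℝ) ^ 6))) with hE
  have hE0 : 0 < E := Real.exp_pos _
  set N : ℕ := 2 ^ (1000 * f) + 1 with hN
  have h4 : 2 ^ 2 ≤ 2 ^ (f / 8) := Nat.pow_le_pow_right (by norm_num) (by omega)
  have h1 := (measureReal_mono (concz_sub z hf hm) (measure_ne_top (mz z) _)).trans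
    (measureReal_biUnion_finset_le _ _)
  refine h1.trans ?_
  have h2 : ∀ p ∈ (Finset.range N ×ˢ Finset.range N).filter (fun p => p.1 < p.2 ∧
      2 ^ (f / 8) ≤ p.1 ∧ 2 ^ (f / 8) ≤ p.2 - p.1),
      (mz z).real (concz_bad z f p.1 p.2) ≤ 2 * E := by
    intro p hp
    rw [Finset.mem_filter, Finset.mem_product, Finset.mem_range, Finset.mem_range] at hp
    exact concz_prob z (by omega) hp.2.1 (by omega) (by omega) hp.2.2.2
  refine (Finset.sum_le_card_nsmul _ _ _ h2).trans ?_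
  rw [nsmul_eq_mul]
  have h3 : ((Finset.range N ×ˢ Finset.range N).filter (fun p => p.1 < p.2 ∧
      2 ^ (f / 8) ≤ p.1 ∧ 2 ^ (f / 8) ≤ p.2 - p.1)).card ≤ N * N := by
    refine (Finset.card_filter_le _ _).trans ?_
    rw [Finset.card_product, Finset.card_range]
  have h5 : N ≤ 2 ^ (1000 * f + 1) := by
    rw [hN, pow_succ]
    have : 1 ≤ 2 ^ (1000 * f) := Nat.one_le_two_pow
    omega
  have h6 : N * N * 2 ≤ 2 ^ (2001 * f) := by
    calc N * N * 2 ≤ 2 ^ (1000 * f + 1) * 2 ^ (1000 * f + 1) * 2 :=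
          Nat.mul_le_mul_right _ (Nat.mul_le_mul h5 h5)
      _ = 2 ^ (2000 * f + 3) := by ring
      _ ≤ 2 ^ (2001 * f) := Nat.pow_le_pow_right (by norm_num) (by omega)
  have h7 : (((Finset.range N ×ˢ Finset.range N).filter (fun p => p.1 < p.2 ∧
      2 ^ (f / 8) ≤ p.1 ∧ 2 ^ (f / 8) ≤ p.2 - p.1)).card : ℝ) * 2 ≤ 2 ^ (2001 * f) := by
    have := (Nat.mul_le_mul_right 2 h3).trans h6
    exact_mod_cast this
  calc _ = (((Finset.range N ×ˢ Finset.range N).filter (fun p => p.1 < p.2 ∧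
      2 ^ (f / 8) ≤ p.1 ∧ 2 ^ (f / 8) ≤ p.2 - p.1)).card : ℝ) * 2 * E := by ring
    _ ≤ 2 ^ (2001 * f) * E := mul_le_mul_of_nonneg_right h7 hE0.le

theorem concz {z : ℕ → ℕ} (hz : Adm z) : ∀ᵐ ω ∂(mz z), ∀ᶠ f : ℕ in atTop, ConcAt f ω := by
  obtain ⟨F0, hF0⟩ := eventually_atTop.1 (mean_z hz)
  set s : ℕ → Set (ℕ → Bool) := fun f => if 16 ≤ f ∧ F0 ≤ f then {ω | ¬ ConcAt f ω} else ∅ with hs
  have h1 : ∀ f, (mz z) (s f) ≤ ENNReal.ofReal ((2 : ℝ) ^ (2001 * f) *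
      Real.exp (-(2 * 2 ^ (f / 8) / (4 * 10 ^ 6 * (f : ℝ) ^ 6)))) := by
    intro f
    by_cases hf : 16 ≤ f ∧ F0 ≤ f
    · rw [hs]
      simp only [if_pos hf]
      rw [← ofReal_measureReal (measure_ne_top (mz z) _)]
      exact ENNReal.ofReal_le_ofReal (concz_real z hf.1 (hF0 f hf.2))
    · rw [hs]
      simp only [if_neg hf]
      rw [measure_empty]
      exact zero_le
  have h2 : ∑' f, (mz z) (s f) ≠ ⊤ :=
    ne_top_of_le_ne_top (Pool.Agent.RG88.concz_num.tsum_ofReal_ne_top) (ENNReal.tsum_le_tsum h1)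
  filter_upwards [ae_eventually_notMem h2] with ω hω
  filter_upwards [hω, eventually_ge_atTop 16, eventually_ge_atTop F0] with f hf hf16 hfF
  by_contra hc
  apply hf
  rw [hs]
  simp only [if_pos (And.intro hf16 hfF)]
  exact hc

end Pool.Agent.RH88
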