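import Pool.Agent.RG88.Defs

/-!
# The sieved random model with a growing sieving limit (definitions)

MP_9be292_nt, paper proof: notes 3656, 3699 and its successor. The sieving limit `z m` depends on `m`:
`pz z m = RG88.pz (z m) m` is the probability of `m`, `mz z` the product measure. The deterministic notions
are those of RS88 and RG88.
-/

set_option autoImplicit false

namespace Pool.Agent.RH88

open MeasureTheory Filter Pool.Agent.GM53 Pool.Agent.RS88

/-- the probability of `m` (sieving limit `z m`) -/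
noncomputable def pz (z : ℕ → ℕ) (m : ℕ) : ℝ := Pool.Agent.RG88.pz (z m) m

/-- the law of the random set -/
noncomputable def mz (z : ℕ → ℕ) : Measure (ℕ → Bool) :=
  Measure.infinitePi (fun m => Pool.Agent.RG88.coin (z m) m)

theorem pz_nonneg (z : ℕ → ℕ) (m : ℕ) : 0 ≤ pz z m := Pool.Agent.RG88.pz_nonneg _ _

theorem pz_le_one (z : ℕ → ℕ) (m : ℕ) : pz z m ≤ 1 := Pool.Agent.RG88.pz_le_one _ _

instance mzP (z : ℕ → ℕ) : IsProbabilityMeasure (mz z) := by unfold mz; infer_instance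

/-- the admissible sieving limits -/
def Adm (z : ℕ → ℕ) : Prop :=
  Monotone z ∧ ∀ᶠ m : ℕ in atTop, (z m : ℝ) ≤ Real.log (Real.log m) / 2

/-- the largest sieving limit at level `f` -/
def zt (z : ℕ → ℕ) (f : ℕ) : ℕ := z (2 ^ (1000 * f))

theorem mert_mono {a b : ℕ} (h : a ≤ b) : mert a ≤ mert b := by
  have h1 : ∀ p ∈ (Finset.range (b + 1)).filter Nat.Prime, (1 : ℝ) ≤ (1 - 1 / (p : ℝ))⁻¹ := by
    intro p hp
    have h2 : 2 ≤ p := (Finset.mem_filter.1 hp).2.two_le
    have h3 : (2 : ℝ) ≤ p := by exact_mod_cast h2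
    have h4 : 1 / (p : ℝ) ≤ 1 / 2 := one_div_le_one_div_of_le (by norm_num) h3
    have h5 : 0 < 1 / (p : ℝ) := by positivity
    exact (one_le_inv₀ (by linarith)).2 (by linarith)
  have hsub : (Finset.range (a + 1)).filter Nat.Prime ⊆ (Finset.range (b + 1)).filter Nat.Prime := by
    intro p hp
    rw [Finset.mem_filter, Finset.mem_range] at hp ⊢
    exact ⟨by omega, hp.2⟩
  have h2 : (1 : ℝ) ≤ ∏ p ∈ (Finset.range (b + 1)).filter Nat.Prime \
      (Finset.range (a + 1)).filter Nat.Prime, (1 - 1 / (p : ℝ))⁻¹ := by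
    calc (1 : ℝ) = ∏ _p ∈ (Finset.range (b + 1)).filter Nat.Prime \
          (Finset.range (a + 1)).filter Nat.Prime, (1 : ℝ) := by rw [Finset.prod_const_one]
      _ ≤ _ := Finset.prod_le_prod (fun _ _ => zero_le_one)
        fun p hp => h1 p (Finset.mem_sdiff.1 hp).1
  have h3 := Finset.prod_sdiff (f := fun p : ℕ => (1 - 1 / (p : ℝ))⁻¹) hsub
  have h4 : mert b = _ := h3.symm
  rw [h4]
  have h5 : 0 ≤ mert a := (mert_pos a).le
  calc mert a = 1 * mert a := (one_mul _).symm
    _ ≤ _ := mul_le_mul_of_nonneg_right h2 h5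

theorem primorial_dvd {a b : ℕ} (h : a ≤ b) : primorial a ∣ primorial b := by
  unfold primorial
  refine Finset.prod_dvd_prod_of_subset _ _ _ fun p hp => ?_
  rw [Finset.mem_filter, Finset.mem_range] at hp ⊢
  exact ⟨by omega, hp.2⟩

theorem pz_lo {z : ℕ → ℕ} (hz : Monotone z) {f m : ℕ} (hm : 3 ≤ m) (hf : m ≤ 2 ^ (1000 * f))
    (hc : m.Coprime (primorial (zt z f))) : 1 / Real.log m ≤ pz z m :=
  Pool.Agent.RG88.pz_lo hm (hc.coprime_dvd_right (primorial_dvd (hz hf)))

theorem pz_up {z : ℕ → ℕ} (hz : Monotone z) {f m : ℕ} (hm : 3 ≤ m) (hf : m ≤ 2 ^ (1000 * f)) :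
    pz z m ≤ mert (zt z f) / Real.log m := by
  have h3 : (3 : ℝ) ≤ m := by exact_mod_cast hm
  refine (Pool.Agent.RG88.pz_up hm).trans ?_
  exact div_le_div_of_nonneg_right (mert_mono (hz hf)) (Real.log_nonneg (by linarith))

end Pool.Agent.RH88
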