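import Pool.Agent.RH88.Defs

/-!
# Independence of finitely many coordinates (as RS88/DepA and RS88/Dep, for the sieved coins)
-/

set_option autoImplicit false

namespace Pool.Agent.RH88

open MeasureTheory Filter Pool.Agent.RS88

theorem mz_true (z : ℕ → ℕ) (m : ℕ) : (mz z).real {ω | ω m = true} = pz z m := by
  have h1 : {ω : ℕ → Bool | ω m = true} =
      (Function.eval m : (ℕ → Bool) → Bool) ⁻¹' ({true} : Set Bool) := rfl
  have h2 := (measurePreserving_eval_infinitePi (fun m => Pool.Agent.RG88.coin (z m) m) m).measure_preimage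
    (MeasurableSet.singleton true).nullMeasurableSet
  rw [measureReal_def, h1, mz, h2, Pool.Agent.RG88.coin]
  simp only [Measure.coe_add, Measure.coe_smul, Pi.add_apply, Pi.smul_apply, smul_eq_mul,
    Measure.dirac_apply, Set.indicator_of_mem (Set.mem_singleton true), Pi.one_apply, mul_one]
  rw [Set.indicator_of_notMem (by simp), mul_zero, add_zero]
  exact ENNReal.toReal_ofReal (pz_nonneg z m)

theorem indz (z : ℕ → ℕ) : ProbabilityTheory.iIndepFun (fun (m : ℕ) (ω : ℕ → Bool) => ω m) (mz z) := by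
  rw [ProbabilityTheory.iIndepFun_iff_map_fun_eq_infinitePi_map
    (fun m => measurable_pi_apply m)]
  have h1 : ∀ m : ℕ, (mz z).map (fun ω => ω m) = (fun m => Pool.Agent.RG88.coin (z m) m) m := fun m => by
    rw [mz]
    exact Measure.infinitePi_map_eval (fun m => Pool.Agent.RG88.coin (z m) m) m
  have h2 : (fun m : ℕ => (mz z).map (fun ω => ω m)) = (fun m => Pool.Agent.RG88.coin (z m) m) := funext h1
  have h3 : (mz z).map (fun (ω : ℕ → Bool) (i : ℕ) => ω i) = (mz z) := Measure.map_id
  rw [h3]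
  simp only [h1]
  rfl

theorem Dez_mul (z : ℕ → ℕ) {S T : Finset ℕ} (hST : Disjoint S T) {E F : Set (ℕ → Bool)}
    (hE : Dep (S : Set ℕ) E) (hF : Dep (T : Set ℕ) F) :
    (mz z).real (E ∩ F) = (mz z).real E * (mz z).real F := by
  obtain ⟨A, hA, hEA⟩ := Dep_pre hE
  obtain ⟨B, hB, hFB⟩ := Dep_pre hF
  have h1 := (indz z).indepFun_finset S T hST (fun i => measurable_pi_apply i)
  have h2 := h1.measure_inter_preimage_eq_mul A B hA hB
  rw [← hEA, ← hFB] at h2
  simp only [Measure.real, h2, ENNReal.toReal_mul]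

theorem Dez_false (z : ℕ → ℕ) (m : ℕ) : (mz z).real {ω | ω m = false} = 1 - pz z m := by
  have h1 : ({ω | ω m = false} : Set (ℕ → Bool)) = {ω | ω m = true}ᶜ := by
    ext ω
    simp
  rw [h1, probReal_compl_eq_one_sub (Dep.meas (Dep_coord m true)), mz_true z]

theorem dez_true (z : ℕ → ℕ) {S : Finset ℕ} {E : Set (ℕ → Bool)} (hE : Dep (S : Set ℕ) E) {m : ℕ}
    (hm : m ∉ S) : (mz z).real (E ∩ {ω | ω m = true}) = (mz z).real E * pz z m := by
  rw [Dez_mul z (Finset.disjoint_singleton_right.mpr hm) hE (Dep_coord m true), mz_true z]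

theorem dez_false (z : ℕ → ℕ) {S : Finset ℕ} {E : Set (ℕ → Bool)} (hE : Dep (S : Set ℕ) E) {m : ℕ}
    (hm : m ∉ S) : (mz z).real (E ∩ {ω | ω m = false}) = (mz z).real E * (1 - pz z m) := by
  rw [Dez_mul z (Finset.disjoint_singleton_right.mpr hm) hE (Dep_coord m false), Dez_false z]

theorem dez_inter (z : ℕ → ℕ) {S T : Finset ℕ} (hST : Disjoint S T) {E : Set (ℕ → Bool)}
    (hE : Dep (S : Set ℕ) E) :
    (mz z).real (E ∩ {ω | ∀ i ∈ T, ω i = false}) = (mz z).real E * ∏ i ∈ T, (1 - pz z i) := by
  classical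
  induction T using Finset.induction_on with
  | empty => simp
  | insert m T hm ih =>
    have hST' : Disjoint S T := Finset.disjoint_of_subset_right (Finset.subset_insert m T) hST
    have hmS : m ∉ S := fun h => Finset.disjoint_left.mp hST h (Finset.mem_insert_self m T)
    have h1 : (E ∩ {ω | ∀ i ∈ insert m T, ω i = false}) =
        (E ∩ {ω | ∀ i ∈ T, ω i = false}) ∩ {ω | ω m = false} := by
      ext ω
      simp only [Set.mem_inter_iff, Set.mem_ofPred_eq, Finset.mem_insert, forall_eq_or_imp]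
      tauto
    have h2 : Dep ((S ∪ T : Finset ℕ) : Set ℕ) (E ∩ {ω | ∀ i ∈ T, ω i = false}) := by
      intro ω ω' h
      have e1 := hE ω ω' fun i hi => h i (by
        rw [Finset.coe_union]
        exact Or.inl hi)
      have e2 : (∀ i ∈ T, ω i = false) ↔ ∀ i ∈ T, ω' i = false := by
        refine forall₂_congr fun i hi => ?_
        rw [h i (by
          rw [Finset.coe_union]
          exact Or.inr hi)]
      simp only [Set.mem_inter_iff, Set.mem_ofPred_eq, e1, e2]
    rw [h1, dez_false z h2 (by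
      rw [Finset.mem_union]
      rintro (h | h)
      · exact hmS h
      · exact hm h), ih hST', Finset.prod_insert hm]
    ring

end Pool.Agent.RH88
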