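import Pool.Agent.RH88.Par
import Pool.Agent.RH88.DepM
import Pool.Agent.RG88.GzPr

/-!
# The conditional probability of the good pattern (as RG88/GzPr)

`P = primorial (zt z f)`, `P ∣ h`. As RG88/GzPr with `pz_lo`, `pz_up` of RH88/Defs (all integers involved are `≤ 2^(1000 f)`), and
`mert (zt z f) ≤ log f` (`par`): `(1/(4f))² (1 - log f/(f log 2))^f ≥ (1/(16 f²)) exp (-3 log f) ≥ 1/f⁶` for large `f`.
-/

set_option autoImplicit false

namespace Pool.Agent.RH88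

open MeasureTheory Filter Pool.Agent.RS88
open Pool.Agent.RG88 (Tz Gz Rt Rg Kz Badz)

/-- lower bound for the probability of one point -/
theorem q80_lo {z : ℕ → ℕ} (hz : Monotone z) {f m : ℕ} (hf : 2 ≤ f) (hm : 3 ≤ m)
    (hm2 : m ≤ 2 ^ (5 * f + 1)) (hc : m.Coprime (primorial (zt z f))) :
    1 / (4 * (f : ℝ)) ≤ pz z m := by
  have hle : m ≤ 2 ^ (1000 * f) :=
    hm2.trans (Nat.pow_le_pow_right (by norm_num) (by omega))
  refine le_trans ?_ (pz_lo hz hm hle hc)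
  have h3 : (3 : ℝ) ≤ m := by exact_mod_cast hm
  have h0 : 0 < Real.log m := Real.log_pos (by linarith)
  apply one_div_le_one_div_of_le h0
  have h4 : (m : ℝ) ≤ 2 ^ (5 * f + 1) := by exact_mod_cast hm2
  have h5 := Real.log_le_log (by linarith) h4
  rw [Real.log_pow] at h5
  push_cast at h5
  have h6 := Real.log_two_lt_d9
  have h7 : (2 : ℝ) ≤ f := by exact_mod_cast hf
  nlinarith

/-- the product over the gap -/
theorem q80_prod {z : ℕ → ℕ} (hz : Monotone z) {f y h : ℕ} {L : ℝ} (hL : 1 ≤ L)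
    (hmL : Pool.Agent.GM53.mert (zt z f) ≤ L) (hf : 4 * L ≤ (f : ℝ)) (hf2 : 2 ≤ f) (hh : h ≤ f)
    (hy : 2 ^ f ≤ y) (hy2 : y < 2 ^ (5 * f)) :
    Real.exp (-3 * L) ≤ ∏ i ∈ Finset.Ioo y (y + h), (1 - pz z i) := by
  have hf0 : (0 : ℝ) < f := by exact_mod_cast (by omega : 0 < f)
  have hx0 : 0 ≤ 3 / 2 * L / f := div_nonneg (by linarith) hf0.le
  have hx1 : 3 / 2 * L / f ≤ 1 / 2 := by
    rw [div_le_div_iff₀ hf0 (by norm_num)]
    linarith
  have hbig : 2 ^ (5 * f) + f ≤ 2 ^ (1000 * f) := by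
    have h1 : f ≤ 2 ^ (5 * f) := Nat.lt_two_pow_self.le.trans
      (Nat.pow_le_pow_right (by norm_num) (by omega))
    calc 2 ^ (5 * f) + f ≤ 2 ^ (5 * f) + 2 ^ (5 * f) := by omega
      _ = 2 ^ (5 * f + 1) := by ring
      _ ≤ 2 ^ (1000 * f) := Nat.pow_le_pow_right (by norm_num) (by omega)
  have h1 : ∀ i ∈ Finset.Ioo y (y + h), Real.exp (-2 * (3 / 2 * L / f)) ≤ 1 - pz z i := by
    intro i hi
    rw [Finset.mem_Ioo] at hi
    have hi2 : 2 ^ f ≤ i := by omega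
    have h4 : 4 ≤ 2 ^ f := by
      calc 4 = 2 ^ 2 := by norm_num
        _ ≤ 2 ^ f := Nat.pow_le_pow_right (by norm_num) hf2
    have hi3 : 3 ≤ i := by omega
    have h5 := pz_up (z := z) hz (f := f) hi3 (by omega)
    have h6 : 2 * (f : ℝ) / 3 ≤ Real.log i := by
      have h7 : ((2 : ℝ) ^ f) ≤ i := by exact_mod_cast hi2
      have h8 := Real.log_le_log (by positivity) h7
      rw [Real.log_pow] at h8
      have h9 := Real.log_two_gt_d9
      nlinarith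
    have h7 : Pool.Agent.GM53.mert (zt z f) / Real.log i ≤ 3 / 2 * L / f := by
      have h10 : 0 < Real.log i := lt_of_lt_of_le (by positivity) h6
      have h8 : Pool.Agent.GM53.mert (zt z f) / Real.log i ≤ L / Real.log i :=
        div_le_div_of_nonneg_right hmL h10.le
      have h11 : L / Real.log i ≤ L / (2 * (f : ℝ) / 3) :=
        div_le_div_of_nonneg_left (by linarith) (by positivity) h6
      have h9 : L / (2 * (f : ℝ) / 3) = 3 / 2 * L / f := by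
        field_simp
      linarith
    have h8 := Pool.Agent.RG88.g80_exp hx0 hx1
    linarith
  have h2 : ∏ _i ∈ Finset.Ioo y (y + h), Real.exp (-2 * (3 / 2 * L / f)) ≤
      ∏ i ∈ Finset.Ioo y (y + h), (1 - pz z i) :=
    Finset.prod_le_prod (fun i _ => (Real.exp_pos _).le) h1
  refine le_trans ?_ h2
  rw [Finset.prod_const, Nat.card_Ioo, ← Real.exp_nat_mul]
  apply Real.exp_le_exp.2
  have h3 : (((y + h - y - 1 : ℕ)) : ℝ) ≤ f := by
    have : y + h - y - 1 ≤ f := by omega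
    exact_mod_cast this
  have h4 : (((y + h - y - 1 : ℕ)) : ℝ) * (3 * L / f) ≤ f * (3 * L / f) :=
    mul_le_mul_of_nonneg_right h3 (by positivity)
  have h5 : (f : ℝ) * (3 * L / f) = 3 * L := by
    field_simp
  have h6 : (((y + h - y - 1 : ℕ)) : ℝ) * (-2 * (3 / 2 * L / f)) =
      -((((y + h - y - 1 : ℕ)) : ℝ) * (3 * L / f)) := by ring
  rw [h6]
  linarith

theorem gz_pr {z : ℕ → ℕ} (hz : Adm z) : ∀ᶠ f : ℕ in atTop, ∀ h S b y : ℕ,
    primorial (zt z f) ∣ h → 1 ≤ h → h ≤ f →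
    2 ^ f ≤ y → y < 2 ^ (5 * f) → ∀ E : Set (ℕ → Bool),
    Dep ((Finset.range y : Finset ℕ) : Set ℕ) E →
    (∀ ω ∈ E, Tz (primorial (zt z f)) h (2 ^ f) S ω y) →
    1 / (f : ℝ) ^ 6 * (mz z).real E ≤ (mz z).real (E ∩ {ω | Gz h b ω y}) := by
  have hev1 : ∀ᶠ f : ℕ in atTop, 4 * Real.log f ≤ (f : ℝ) := by
    have h0 := Real.isLittleO_log_id_atTop.bound (show (0 : ℝ) < 1 / 4 by norm_num)
    have h1 := tendsto_natCast_atTop_atTop.eventually h0
    filter_upwards [h1, eventually_ge_atTop 1] with f hf hf1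
    have hf2 : (1 : ℝ) ≤ f := by exact_mod_cast hf1
    rw [Real.norm_of_nonneg (Real.log_nonneg hf2), id, Real.norm_of_nonneg (by linarith)] at hf
    linarith
  filter_upwards [hev1, par hz, eventually_ge_atTop 16] with f hf1 hpar hf16
  have hf3 : 2 ≤ f := by omega
  intro h S b y hP h1 hhf hy1 hy2 E hE hT
  rcases E.eq_empty_or_nonempty with rfl | ⟨ω0, hω0⟩
  · simp
  have hf0 : (0 : ℝ) < f := by exact_mod_cast (by omega : 0 < f)
  -- the congruences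
  obtain ⟨-, -, s, -, -, hs, hW, -⟩ := hT ω0 hω0
  have hy : y = h * (ct ω0 y + 1) + s ^ 2 := by
    unfold W at hW
    have h2 : (y : ℤ) = ((h * (ct ω0 y + 1) + s ^ 2 : ℕ) : ℤ) := by
      push_cast
      linarith
    exact_mod_cast h2
  obtain ⟨hc1, hc2⟩ := Pool.Agent.RG88.g80_cop hP hs hy
  have h4f : 4 ≤ 2 ^ f := by
    calc 4 = 2 ^ 2 := by norm_num
      _ ≤ 2 ^ f := Nat.pow_le_pow_right (by norm_num) hf3
  have hle5 : 2 ^ f ≤ 2 ^ (5 * f) := Nat.pow_le_pow_right (by norm_num) (by omega)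
  have hff : f ≤ 2 ^ f := Nat.lt_two_pow_self.le
  have hpow : 2 ^ (5 * f + 1) = 2 ^ (5 * f) * 2 := pow_succ _ _
  have hp1 : 1 / (4 * (f : ℝ)) ≤ pz z y := q80_lo hz.1 hf3 (by omega) (by omega) hc1
  have hp2 : 1 / (4 * (f : ℝ)) ≤ pz z (y + h) := q80_lo hz.1 hf3 (by omega) (by omega) hc2
  have hL : 1 ≤ Real.log f := by
    have h2 : (0 : ℝ) ≤ (zt z f : ℝ) := Nat.cast_nonneg _
    linarith [hpar.2.1]
  have hpr := q80_prod hz.1 hL hpar.2.2 hf1 hf3 hhf hy1 hy2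
  -- the two parts
  let A : Set (ℕ → Bool) := {ω | (ct ω y + 1) % 2 = b % 2}
  have hA : Dep ((Finset.range y : Finset ℕ) : Set ℕ) A := Pool.Agent.RG88.g80_dep b y
  let T : Finset ℕ := Finset.Ioo y (y + h)
  let F1 : Set (ℕ → Bool) := (E ∩ A) ∩ {ω | ω y = true}
  let F2 : Set (ℕ → Bool) := (E ∩ Aᶜ) ∩ {ω | ω y = true}
  let F3 : Set (ℕ → Bool) := F2 ∩ {ω | ∀ i ∈ T, ω i = false}
  let F4 : Set (ℕ → Bool) := F3 ∩ {ω | ω (y + h) = true}
  have hEA : Dep ((Finset.range y : Finset ℕ) : Set ℕ) (E ∩ A) := Dep.inter38 hE hA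
  have hEA' : Dep ((Finset.range y : Finset ℕ) : Set ℕ) (E ∩ Aᶜ) :=
    Dep.inter38 hE (Dep.compl38 hA)
  have hyn : y ∉ Finset.range y := by simp
  have m1 : (mz z).real F1 = (mz z).real (E ∩ A) * pz z y := dez_true z hEA hyn
  have m2 : (mz z).real F2 = (mz z).real (E ∩ Aᶜ) * pz z y := dez_true z hEA' hyn
  have hsub1 : ((Finset.range y : Finset ℕ) : Set ℕ) ⊆ ((Finset.range (y + 1) : Finset ℕ) : Set ℕ) := by
    intro i hi
    rw [Finset.mem_coe, Finset.mem_range] at hi ⊢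
    omega
  have hF2 : Dep ((Finset.range (y + 1) : Finset ℕ) : Set ℕ) F2 :=
    Dep.inter38 (Dep.mono38 hEA' hsub1) (dep_coord38 (by
      rw [Finset.mem_coe, Finset.mem_range]
      omega) true)
  have hdisj : Disjoint (Finset.range (y + 1)) T := by
    rw [Finset.disjoint_left]
    intro i hi hi'
    rw [Finset.mem_range] at hi
    have := (Finset.mem_Ioo.1 hi').1
    omega
  have m3 : (mz z).real F3 = (mz z).real F2 * ∏ i ∈ T, (1 - pz z i) := dez_inter z hdisj hF2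
  have hsub2 : ((Finset.range (y + 1) : Finset ℕ) : Set ℕ) ⊆
      ((Finset.range (y + h) : Finset ℕ) : Set ℕ) := by
    intro i hi
    rw [Finset.mem_coe, Finset.mem_range] at hi ⊢
    omega
  have hTd : Dep ((Finset.range (y + h) : Finset ℕ) : Set ℕ)
      {ω : ℕ → Bool | ∀ i ∈ T, ω i = false} := by
    intro ω ω' hh
    refine forall₂_congr fun i hi => ?_
    rw [hh i (by
      rw [Finset.mem_coe, Finset.mem_range]
      exact (Finset.mem_Ioo.1 hi).2)]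
  have hF3 : Dep ((Finset.range (y + h) : Finset ℕ) : Set ℕ) F3 :=
    Dep.inter38 (Dep.mono38 hF2 hsub2) hTd
  have m4 : (mz z).real F4 = (mz z).real F3 * pz z (y + h) := dez_true z hF3 (by simp)
  have hsub3 : ((Finset.range (y + h) : Finset ℕ) : Set ℕ) ⊆
      ((Finset.range (y + h + 1) : Finset ℕ) : Set ℕ) := by
    intro i hi
    rw [Finset.mem_coe, Finset.mem_range] at hi ⊢
    omega
  have hF4 : Dep ((Finset.range (y + h + 1) : Finset ℕ) : Set ℕ) F4 :=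
    Dep.inter38 (Dep.mono38 hF3 hsub3) (dep_coord38 (by
      rw [Finset.mem_coe, Finset.mem_range]
      omega) true)
  -- inclusion and disjointness
  have hincl : F1 ∪ F4 ⊆ E ∩ {ω | Gz h b ω y} := by
    rintro ω (⟨⟨hωE, hωA⟩, hωy⟩ | ⟨⟨⟨⟨hωE, -⟩, hωy⟩, hωT⟩, hωh⟩)
    · exact ⟨hωE, hωy, Or.inl hωA⟩
    · refine ⟨hωE, hωy, Or.inr ⟨fun i hi1 hi2 => hωT i (Finset.mem_Ioo.2 ⟨hi1, hi2⟩), hωh⟩⟩
  have hdis : Disjoint F1 F4 := by
    rw [Set.disjoint_left]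
    rintro ω ⟨⟨-, hωA⟩, -⟩ ⟨⟨⟨⟨-, hωA'⟩, -⟩, -⟩, -⟩
    exact hωA' hωA
  have hun : (mz z).real (F1 ∪ F4) = (mz z).real F1 + (mz z).real F4 :=
    measureReal_union hdis hF4.meas
  have hmono : (mz z).real (F1 ∪ F4) ≤ (mz z).real (E ∩ {ω | Gz h b ω y}) :=
    measureReal_mono hincl
  have hsplit : (mz z).real E = (mz z).real (E ∩ A) + (mz z).real (E ∩ Aᶜ) := by
    have h2 : E = (E ∩ A) ∪ (E ∩ Aᶜ) := by
      rw [← Set.inter_union_distrib_left, Set.union_compl_self, Set.inter_univ]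
    have h3 : Disjoint (E ∩ A) (E ∩ Aᶜ) := by
      rw [Set.disjoint_left]
      rintro ω ⟨-, h4⟩ ⟨-, h5⟩
      exact h5 h4
    calc (mz z).real E = (mz z).real ((E ∩ A) ∪ (E ∩ Aᶜ)) := by rw [← h2]
      _ = _ := measureReal_union h3 hEA'.meas
  -- the numbers
  have hf16' : (16 : ℝ) ≤ f := by exact_mod_cast hf16
  have hc : 1 / (f : ℝ) ^ 6 ≤ 1 / (4 * (f : ℝ)) * Real.exp (-3 * Real.log f) *
      (1 / (4 * (f : ℝ))) := by
    have h2 : Real.exp (-3 * Real.log f) = 1 / (f : ℝ) ^ 3 := by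
      rw [show -3 * Real.log f = -(((3 : ℕ) : ℝ) * Real.log f) by push_cast; ring, Real.exp_neg,
        Real.exp_nat_mul, Real.exp_log hf0, one_div]
    rw [h2, one_div_mul_one_div, one_div_mul_one_div]
    apply one_div_le_one_div_of_le (by positivity)
    have h4 : 16 * (f : ℝ) ^ 5 ≤ f * (f : ℝ) ^ 5 :=
      mul_le_mul_of_nonneg_right hf16' (by positivity)
    calc 4 * (f : ℝ) * (f : ℝ) ^ 3 * (4 * f) = 16 * (f : ℝ) ^ 5 := by
          ring
      _ ≤ f * (f : ℝ) ^ 5 := h4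
      _ = (f : ℝ) ^ 6 := by ring
  have hc2' : 1 / (f : ℝ) ^ 6 ≤ pz z y * (∏ i ∈ T, (1 - pz z i)) * pz z (y + h) := by
    refine hc.trans ?_
    apply mul_le_mul _ hp2 (by positivity) (mul_nonneg (pz_nonneg z y)
      ((Real.exp_pos _).le.trans hpr))
    exact mul_le_mul hp1 hpr (Real.exp_pos _).le (pz_nonneg z y)
  have hc1' : 1 / (f : ℝ) ^ 6 ≤ pz z y := by
    refine le_trans ?_ hp1
    apply one_div_le_one_div_of_le (by positivity)
    have h5 : (1 : ℝ) ≤ (f : ℝ) ^ 4 := one_le_pow₀ (by linarith)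
    have h6 : 4 * (f : ℝ) ≤ f * f := by nlinarith
    calc 4 * (f : ℝ) ≤ f * f := h6
      _ = (f * f) * 1 := (mul_one _).symm
      _ ≤ (f * f) * (f : ℝ) ^ 4 := mul_le_mul_of_nonneg_left h5 (by positivity)
      _ = (f : ℝ) ^ 6 := by ring
  have hnn1 : 0 ≤ (mz z).real (E ∩ A) := measureReal_nonneg
  have hnn2 : 0 ≤ (mz z).real (E ∩ Aᶜ) := measureReal_nonneg
  calc 1 / (f : ℝ) ^ 6 * (mz z).real E =
      (mz z).real (E ∩ A) * (1 / (f : ℝ) ^ 6) + (mz z).real (E ∩ Aᶜ) * (1 / (f : ℝ) ^ 6) := by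
        rw [hsplit]; ring
    _ ≤ (mz z).real (E ∩ A) * pz z y +
        (mz z).real (E ∩ Aᶜ) * (pz z y * (∏ i ∈ T, (1 - pz z i)) * pz z (y + h)) :=
        add_le_add (mul_le_mul_of_nonneg_left hc1' hnn1) (mul_le_mul_of_nonneg_left hc2' hnn2)
    _ = (mz z).real F1 + (mz z).real F4 := by
        rw [m4, m3, m2, m1]; ring
    _ ≤ _ := by rw [← hun]; exact hmono

end Pool.Agent.RH88
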