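import Pool.Agent.RH88.Defs
import Pool.Agent.RG88.Def2
import Pool.Agent.RG88.MFzN

/-!
# Numerical facts for the small summand (as RG88/MFzN)

`mfh_num`: at most `exp (2^(f/4) - ((2^(f/3) - f)/f - 1)/(2 f⁶))`. `mfh_conc`: as `mfz_conc` in RG88/MFzN, now uniformly in `P` with
`10 P ≤ f`: `h = f - f % P ≥ 0.9 f`, `ct ω (2^f) ≥ 1.4 * 2^f/f` for large `f`.
-/

set_option autoImplicit false

namespace Pool.Agent.RH88

open MeasureTheory Filter Pool.Agent.RS88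
open Pool.Agent.RG88 (Tz Gz Rt Rg Kz Badz)

theorem mfhn_pow (K : ℕ) : ∃ g0 : ℕ, 1 ≤ g0 ∧ ∀ g : ℕ, g0 ≤ g → K * g ^ 8 ≤ 2 ^ g := by
  have h1 := tendsto_pow_const_div_const_pow_of_one_lt 8 (r := (2 : ℝ)) (by norm_num)
  have h2 : ∀ᶠ n : ℕ in atTop, ((n : ℝ)) ^ 8 / 2 ^ n < 1 / (K + 1) :=
    (tendsto_order.1 h1).2 _ (by positivity)
  obtain ⟨g0, hg0⟩ := eventually_atTop.1 h2
  refine ⟨max g0 1, le_max_right _ _, fun g hg => ?_⟩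
  have h3 := hg0 g (le_trans (le_max_left _ _) hg)
  rw [div_lt_div_iff₀ (by positivity) (by positivity)] at h3
  have h4 : (0 : ℝ) ≤ (g : ℝ) ^ 8 := by positivity
  have h5 : ((K * g ^ 8 : ℕ) : ℝ) ≤ ((2 ^ g : ℕ) : ℝ) := by
    push_cast
    nlinarith
  exact_mod_cast h5

theorem mfhn_nat : ∀ᶠ f : ℕ in atTop, 1 ≤ f ∧
    2 * f ^ 6 * (2 ^ (f / 4) + f) ≤ (2 ^ (f / 3) - f) / f := by
  obtain ⟨g0, hg1, hg0⟩ := mfhn_pow (5 * 48 ^ 8)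
  filter_upwards [eventually_ge_atTop (24 * g0)] with f hf
  have hf1 : 1 ≤ f := by omega
  refine ⟨hf1, ?_⟩
  rw [Nat.le_div_iff_mul_le (by omega)]
  have h1 : f / 4 + f / 24 ≤ f / 3 := by omega
  have h2 : 2 ^ (f / 4) * 2 ^ (f / 24) ≤ 2 ^ (f / 3) := by
    rw [← pow_add]
    exact Nat.pow_le_pow_right (by norm_num) h1
  have hg : g0 ≤ f / 24 := by omega
  have h3 := hg0 (f / 24) hg
  have h4 : f ≤ 48 * (f / 24) := by omega
  have h5 : 1 ≤ 2 ^ (f / 4) := Nat.one_le_pow _ _ (by norm_num)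
  have h6 : f ^ 8 ≤ 48 ^ 8 * (f / 24) ^ 8 := by
    calc f ^ 8 ≤ (48 * (f / 24)) ^ 8 := Nat.pow_le_pow_left h4 8
      _ = 48 ^ 8 * (f / 24) ^ 8 := by rw [mul_pow]
  have h7 : 2 * f ^ 6 * (1 + f) * f + f ≤ 5 * f ^ 8 := by
    have e1 : f ≤ f ^ 8 := Nat.le_self_pow (by norm_num) f
    have e2 : f ^ 7 ≤ f ^ 8 := Nat.pow_le_pow_right hf1 (by norm_num)
    have e3 : 2 * f ^ 6 * (1 + f) * f = 2 * f ^ 7 + 2 * f ^ 8 := by ring
    omega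
  have h8 : 5 * f ^ 8 ≤ 2 ^ (f / 24) := by
    calc 5 * f ^ 8 ≤ 5 * (48 ^ 8 * (f / 24) ^ 8) := Nat.mul_le_mul_left _ h6
      _ = 5 * 48 ^ 8 * (f / 24) ^ 8 := by ring
      _ ≤ 2 ^ (f / 24) := h3
  have h9 : 2 * f ^ 6 * (2 ^ (f / 4) + f) * f + f ≤ 2 ^ (f / 3) := by
    calc 2 * f ^ 6 * (2 ^ (f / 4) + f) * f + f
        ≤ 2 * f ^ 6 * (2 ^ (f / 4) + 2 ^ (f / 4) * f) * f + 2 ^ (f / 4) * f := by
          refine Nat.add_le_add ?_ (Nat.le_mul_of_pos_left _ h5)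
          refine Nat.mul_le_mul_right _ (Nat.mul_le_mul_left _ (Nat.add_le_add_left ?_ _))
          exact Nat.le_mul_of_pos_left _ h5
      _ = 2 ^ (f / 4) * (2 * f ^ 6 * (1 + f) * f + f) := by ring
      _ ≤ 2 ^ (f / 4) * 2 ^ (f / 24) := Nat.mul_le_mul_left _ (h7.trans h8)
      _ ≤ 2 ^ (f / 3) := h2
  omega

theorem mfh_num : Summable fun f : ℕ =>
    (2 : ℝ) ^ (2 ^ (f / 4)) * (1 - 1 / (f : ℝ) ^ 6 / 2) ^ ((2 ^ (f / 3) - f) / f) := by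
  refine Summable.of_norm_bounded_eventually_nat Real.summable_exp_neg_nat ?_
  filter_upwards [mfhn_nat] with f hf
  obtain ⟨hf1, hn⟩ := hf
  have hfR : (1 : ℝ) ≤ f := by exact_mod_cast hf1
  have hf0 : (0 : ℝ) < f := by linarith
  have hf3 : (1 : ℝ) ≤ (f : ℝ) ^ 6 := one_le_pow₀ hfR
  have hx0 : 0 ≤ 1 - 1 / (f : ℝ) ^ 6 / 2 := by
    have h1 : 1 / (f : ℝ) ^ 6 ≤ 1 := by
      rw [div_le_one (by positivity)]
      exact hf3
    linarith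
  have hx1 : 1 - 1 / (f : ℝ) ^ 6 / 2 ≤ Real.exp (-(1 / (2 * (f : ℝ) ^ 6))) := by
    have h1 := Real.add_one_le_exp (-(1 / (2 * (f : ℝ) ^ 6)))
    have h2 : 1 / (f : ℝ) ^ 6 / 2 = 1 / (2 * (f : ℝ) ^ 6) := by
      field_simp
    rw [h2]
    linarith
  rw [Real.norm_of_nonneg (by positivity)]
  have h2e : (2 : ℝ) ≤ Real.exp 1 := by
    have := Real.add_one_le_exp (1 : ℝ)
    linarith
  set Q := (2 ^ (f / 3) - f) / f with hQ
  have hn' : (2 * (f : ℝ) ^ 6) * (2 ^ (f / 4) + f) ≤ (Q : ℝ) := by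
    exact_mod_cast hn
  calc (2 : ℝ) ^ (2 ^ (f / 4)) * (1 - 1 / (f : ℝ) ^ 6 / 2) ^ Q
      ≤ (Real.exp 1) ^ (2 ^ (f / 4)) * (Real.exp (-(1 / (2 * (f : ℝ) ^ 6)))) ^ Q := by
        refine mul_le_mul (pow_le_pow_left₀ (by norm_num) h2e _) (pow_le_pow_left₀ hx0 hx1 _)
          (by positivity) (by positivity)
    _ = Real.exp ((2 : ℝ) ^ (f / 4) - (Q : ℝ) / (2 * (f : ℝ) ^ 6)) := by
        rw [← Real.exp_nat_mul, ← Real.exp_nat_mul, ← Real.exp_add]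
        congr 1
        push_cast
        ring
    _ ≤ Real.exp (-(f : ℝ)) := by
        apply Real.exp_le_exp.2
        have h3 : (2 : ℝ) ^ (f / 4) + f ≤ (Q : ℝ) / (2 * (f : ℝ) ^ 6) := by
          rw [le_div_iff₀ (by positivity)]
          linarith
        linarith

theorem mfh_conc : ∀ᶠ f : ℕ in atTop, ∀ P : ℕ, 1 ≤ P → 10 * P ≤ f → ∀ ω : ℕ → Bool, ConcAt f ω →
    1 ≤ f - f % P ∧ W ω (f - f % P) (2 ^ f) ≤ 0 ∧
      (((2 ^ (f / 3) : ℕ) : ℤ)) ^ 2 + ((f - f % P : ℕ) : ℤ) < W ω (f - f % P) (2 ^ (5 * f)) ∧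
      2 ^ f / f ≤ ct ω (2 ^ f) + 1 ∧ (2 ^ (f / 3)) ^ 2 ≤ ct ω (2 ^ f) + 1 := by
  filter_upwards [eventually_ge_atTop 12, mf_conc] with f hf hm P hP hfP ω hc
  obtain ⟨-, -, m3, m4⟩ := hm ω hc
  have hmod : f % P < P := Nat.mod_lt _ (by omega)
  set h := f - f % P with hh
  have hh1 : 1 ≤ h := by omega
  have hhf : h ≤ f := Nat.sub_le _ _
  have hh6 : 5 * f ≤ 6 * h := by omega
  refine ⟨hh1, ?_, ?_, m3, m4⟩
  · have h1 := Pool.Agent.RG88.mfz_first hf hc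
    set c := ct ω (2 ^ f) with hc'
    have h2 : 30 * 2 ^ f ≤ 30 * (h * (c + 1)) := by
      calc 30 * 2 ^ f = 5 * (6 * 2 ^ f) := by ring
        _ ≤ 5 * (5 * (f * c)) := Nat.mul_le_mul_left _ h1
        _ = 5 * ((5 * f) * c) := by ring
        _ ≤ 5 * ((6 * h) * c) := Nat.mul_le_mul_left _ (Nat.mul_le_mul_right _ hh6)
        _ = 30 * (h * c) := by ring
        _ ≤ 30 * (h * (c + 1)) :=
          Nat.mul_le_mul_left _ (Nat.mul_le_mul_left _ (Nat.le_succ c))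
    have h3 : 2 ^ f ≤ h * (c + 1) := by omega
    unfold W
    rw [← hc']
    have h4 : ((2 ^ f : ℕ) : ℤ) ≤ (h : ℤ) * ((c : ℤ) + 1) := by exact_mod_cast h3
    linarith
  · have h1 := mf_second hf hc
    set c := ct ω (2 ^ (5 * f)) with hc'
    have h2 : h * (c + 1) ≤ f * (c + 1) := Nat.mul_le_mul_right _ hhf
    have h3 : (2 ^ (f / 3)) ^ 2 + h ≤ 2 ^ f := by
      have e1 : (2 ^ (f / 3)) ^ 2 ≤ 2 ^ (f - 1) := by
        rw [← pow_mul]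
        exact Nat.pow_le_pow_right (by norm_num) (by omega)
      have e2 : f - 1 < 2 ^ (f - 1) := Nat.lt_two_pow_self
      have e3 : 2 ^ f = 2 * 2 ^ (f - 1) := by
        rw [← pow_succ']
        congr 1
        omega
      omega
    have h4 : (2 ^ (f / 3)) ^ 2 + h + h * (c + 1) < 2 ^ (5 * f) := by omega
    unfold W
    rw [← hc']
    have h5 : (((2 ^ (f / 3) : ℕ) : ℤ)) ^ 2 + (h : ℤ) + (h : ℤ) * ((c : ℤ) + 1) <
        ((2 ^ (5 * f) : ℕ) : ℤ) := by exact_mod_cast h4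
    linarith

end Pool.Agent.RH88
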