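import Pool.Agent.RH88.Blk
import Pool.Agent.RG88.TzDep
import Pool.Agent.RG88.TzGap
import Pool.Agent.RG88.GzCard
import Pool.Agent.RH88.GzPr
import Pool.Agent.RH88.MFzN
import Pool.Agent.RH88.ConcZ

/-!
# Many `m` of each parity with a square residue (copy of RG88/MFz)

`P = primorial (zt z f)` now depends on `f`, `10 P ≤ f` (`par`); `p = 1/f⁶`; number of trials
`(2^(f/3) - f)/f ≤ (2^(f/3) - h)/P` (`lev_card`, `tz_trials`); `mfh_num`, `mfh_conc`.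
-/

set_option autoImplicit false

namespace Pool.Agent.RH88

open MeasureTheory Filter Pool.Agent.RS88
open Pool.Agent.RG88 (Tz Gz Rt Rg Kz Badz)

open Classical in
theorem mfz {z : ℕ → ℕ} (hz : Adm z) (b : ℕ) : ∀ᵐ ω ∂(mz z), ∀ᶠ f : ℕ in atTop,
    2 ^ (f / 4) ≤ ((Msq ω (2 ^ f / f) (2 ^ (5 * f))).filter (fun m => m % 2 = b % 2)).card := by
  obtain ⟨Pf, hPe⟩ : ∃ Pf : ℕ → ℕ, Pf = fun f => primorial (zt z f) := ⟨_, rfl⟩
  have hPe' : ∀ f, primorial (zt z f) = Pf f := fun f => by rw [hPe]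
  have hP : ∀ f, 1 ≤ Pf f := fun f => by rw [← hPe']; exact primorial_pos _
  obtain ⟨Q, hQ⟩ : ∃ Q : ℕ → Prop, Q = fun f => ∀ h S b y : ℕ, primorial (zt z f) ∣ h → 1 ≤ h →
    h ≤ f → 2 ^ f ≤ y → y < 2 ^ (5 * f) → ∀ E : Set (ℕ → Bool),
    Dep ((Finset.range y : Finset ℕ) : Set ℕ) E →
    (∀ ω ∈ E, Tz (primorial (zt z f)) h (2 ^ f) S ω y) →
    1 / (f : ℝ) ^ 6 * (mz z).real E ≤ (mz z).real (E ∩ {ω | Gz h b ω y}) := ⟨_, rfl⟩
  have hQe : ∀ᶠ f : ℕ in atTop, Q f := by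
    rw [hQ]
    exact gz_pr hz
  set B : ℕ → Set (ℕ → Bool) := fun f =>
    {ω | (Q f ∧ 1 ≤ f - f % Pf f) ∧
      ((2 ^ (f / 3) - f) / f ≤ ((Finset.Ico (2 ^ f) (2 ^ (5 * f))).filter
        (fun y => Tz (Pf f) (f - f % Pf f) (2 ^ f) (2 ^ (f / 3)) ω y)).card ∧
      ((Finset.Ico (2 ^ f) (2 ^ (5 * f))).filter
        (fun y => Tz (Pf f) (f - f % Pf f) (2 ^ f) (2 ^ (f / 3)) ω y ∧
          Gz (f - f % Pf f) b ω y)).card < 2 ^ (f / 4))} with hB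
  have hBle : ∀ f, (mz z) (B f) ≤ ENNReal.ofReal
      ((2 : ℝ) ^ (2 ^ (f / 4)) * (1 - 1 / (f : ℝ) ^ 6 / 2) ^ ((2 ^ (f / 3) - f) / f)) := by
    intro f
    by_cases hf : Q f ∧ 1 ≤ f - f % Pf f
    · have hf1 : (1 : ℝ) ≤ f := by
        have : 1 ≤ f := by omega
        exact_mod_cast this
      have hf3 : (1 : ℝ) ≤ (f : ℝ) ^ 6 := one_le_pow₀ hf1
      have hp0 : 0 ≤ 1 / (f : ℝ) ^ 6 := by positivity
      have hp1 : 1 / (f : ℝ) ^ 6 ≤ 1 := by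
        rw [div_le_one (by linarith)]
        exact hf3
      have hq := hf.1
      rw [hQ] at hq
      have h1 := blk z hp0 hp1 (f - f % Pf f + 1) (2 ^ f) (2 ^ (5 * f)) (by omega)
        (fun ω y => Tz (Pf f) (f - f % Pf f) (2 ^ f) (2 ^ (f / 3)) ω y)
        (fun ω y => Gz (f - f % Pf f) b ω y)
        (fun y => Pool.Agent.RG88.tz_dep (Pf f) (f - f % Pf f) (2 ^ f) (2 ^ (f / 3)) y)
        (fun y => Pool.Agent.RG88.gz_dep (Pf f) (f - f % Pf f) (2 ^ f) (2 ^ (f / 3)) b y)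
        (fun ω y y' hy hy' hyy => Pool.Agent.RG88.tz_gap hy hy' hyy)
        (fun y hy1 hy2 E hE hET => hq (f - f % Pf f) (2 ^ (f / 3)) b y
          (by rw [hPe']; exact Nat.dvd_sub_mod f) hf.2 (Nat.sub_le _ _) hy1 hy2 E hE
          (by rw [hPe']; exact hET))
        ((2 ^ (f / 3) - f) / f) (2 ^ (f / 4))
      have h2 : B f = {ω | (2 ^ (f / 3) - f) / f ≤ ((Finset.Ico (2 ^ f) (2 ^ (5 * f))).filter
          (fun y => Tz (Pf f) (f - f % Pf f) (2 ^ f) (2 ^ (f / 3)) ω y)).card ∧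
        ((Finset.Ico (2 ^ f) (2 ^ (5 * f))).filter
          (fun y => Tz (Pf f) (f - f % Pf f) (2 ^ f) (2 ^ (f / 3)) ω y ∧
            Gz (f - f % Pf f) b ω y)).card < 2 ^ (f / 4)} := by
        ext ω
        simp only [hB, Set.mem_ofPred_eq, hf, true_and, and_self]
      rw [h2, ← ofReal_measureReal]
      exact ENNReal.ofReal_le_ofReal h1
    · have h2 : B f = ∅ := by
        ext ω
        simp only [hB, Set.mem_ofPred_eq, hf, false_and, Set.mem_empty_iff_false]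
      rw [h2, measure_empty]
      exact bot_le
  have hsum : (∑' f, (mz z) (B f)) ≠ ⊤ := by
    refine ne_top_of_le_ne_top mfh_num.tsum_ofReal_ne_top (ENNReal.tsum_le_tsum hBle)
  have hae := ae_eventually_notMem hsum
  filter_upwards [hae, concz hz] with ω h1 h2
  filter_upwards [h1, h2, mfh_conc, hQe, par hz] with f h3 h4 h5 h6 h7
  rw [hPe'] at h7
  obtain ⟨a0, a1, a2, a3, a4⟩ := h5 (Pf f) (hP f) h7.1 ω h4
  have hNV : 2 ^ f ≤ 2 ^ (5 * f) := Nat.pow_le_pow_right (by norm_num) (by omega)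
  have a2' : (((2 ^ (f / 3) : ℕ) : ℤ)) ^ 2 < W ω (f - f % Pf f) (2 ^ (5 * f)) := by
    have : (0 : ℤ) ≤ ((f - f % Pf f : ℕ) : ℤ) := Int.natCast_nonneg _
    linarith
  have k1 := Pool.Agent.RG88.tz_trials (P := Pf f) hNV a1 a2'
  have k0 := Pool.Agent.RG88.lev_card (P := Pf f) (h := f - f % Pf f) (S := 2 ^ (f / 3)) (hP f)
  have k00 : (2 ^ (f / 3) - f) / f ≤ (2 ^ (f / 3) - (f - f % Pf f)) / Pf f := by
    have e1 : (2 ^ (f / 3) - f) / f ≤ (2 ^ (f / 3) - f) / Pf f :=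
      Nat.div_le_div_left (by omega) (hP f)
    exact e1.trans (Nat.div_le_div_right (by omega))
  have k2 := Pool.Agent.RG88.gz_card (P := Pf f) (b := b) (L := 2 ^ f / f) a0 a2 a4 a3
  by_contra hlt
  push Not at hlt
  exact h3 ⟨⟨h6, a0⟩, k00.trans (k0.trans k1), lt_of_le_of_lt k2 hlt⟩

end Pool.Agent.RH88
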