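import Pool.Agent.RH88.Defs
import Pool.Agent.RG88.Def2

/-!
# The parameters at level `f` (helper34)
-/

set_option autoImplicit false

namespace Pool.Agent.RH88.S34

open MeasureTheory Filter Pool.Agent.RS88 Pool.Agent.RH88
open Pool.Agent.GM53 (mert mert_pos)

theorem mert_le {a : ℕ} (ha : 1 ≤ a) : mert a ≤ a := by
  induction a, ha using Nat.le_induction with
  | base =>
    unfold mert
    have : (Finset.range (1 + 1)).filter Nat.Prime = ∅ := by decide
    rw [this]
    simp
  | succ a ha ih =>
    unfold mert at ih ⊢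
    have ha' : (1 : ℝ) ≤ a := by exact_mod_cast ha
    have ha0 : (0 : ℝ) < a := by linarith
    rw [Finset.range_add_one, Finset.filter_insert]
    split_ifs with hp
    · rw [Finset.prod_insert (by simp)]
      push_cast
      have h1 : (1 - 1 / ((a : ℝ) + 1))⁻¹ = ((a : ℝ) + 1) / a := by
        have h2 : 1 - 1 / ((a : ℝ) + 1) = a / ((a : ℝ) + 1) := by
          field_simp
          ring
        rw [h2, inv_div]
      rw [h1]
      calc ((a : ℝ) + 1) / a * ∏ p ∈ (Finset.range (a + 1)).filter Nat.Prime,
            (1 - 1 / (p : ℝ))⁻¹ ≤ ((a : ℝ) + 1) / a * a :=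
            mul_le_mul_of_nonneg_left ih (by positivity)
        _ = a + 1 := by field_simp
    · push_cast
      linarith

theorem mert_le_succ (a : ℕ) : mert a ≤ a + 1 := by
  rcases Nat.eq_zero_or_pos a with rfl | ha
  · unfold mert
    have : (Finset.range (0 + 1)).filter Nat.Prime = ∅ := by decide
    rw [this]
    simp
  · have := mert_le ha
    linarith

theorem par {z : ℕ → ℕ} (hz : Adm z) : ∀ᶠ f : ℕ in atTop,
    10 * primorial (zt z f) ≤ f ∧ (zt z f : ℝ) + 1 ≤ Real.log f ∧
      mert (zt z f) ≤ Real.log f := by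
  have ht : Tendsto (fun f : ℕ => 2 ^ (1000 * f)) atTop atTop := by
    refine tendsto_atTop_mono (fun f => ?_) tendsto_id
    have h1 : f < 2 ^ f := Nat.lt_two_pow_self
    have h2 : 2 ^ f ≤ 2 ^ (1000 * f) := Nat.pow_le_pow_right (by norm_num) (by omega)
    exact h1.le.trans h2
  have hl : Tendsto (fun f : ℕ => Real.log f) atTop atTop :=
    Real.tendsto_log_atTop.comp tendsto_natCast_atTop_atTop
  have h2 : 0 < 1 - Real.log 2 := by
    have := Real.log_two_lt_d9
    linarith
  have hl2 : Tendsto (fun f : ℕ => (1 - Real.log 2) * Real.log f) atTop atTop :=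
    hl.const_mul_atTop h2
  filter_upwards [ht.eventually hz.2, hl.eventually_ge_atTop (Real.log 1000 + 2),
    hl2.eventually_ge_atTop (Real.log 10 + Real.log 2 * Real.log 1000),
    eventually_ge_atTop 1] with f h3 h4 h5 hf1
  have hf : (0 : ℝ) < f := by exact_mod_cast hf1
  have hlog2 : Real.log 2 ≤ 1 := by linarith
  have hlog20 : 0 < Real.log 2 := Real.log_pos (by norm_num)
  have e1 : (zt z f : ℝ) ≤ (Real.log 1000 + Real.log f) / 2 := by
    unfold zt
    refine h3.trans ?_
    push_cast
    rw [Real.log_pow, ← Real.log_mul (by norm_num) hf.ne']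
    have h6 : Real.log (((1000 * f : ℕ) : ℝ) * Real.log 2) ≤ Real.log (1000 * (f : ℝ)) := by
      apply Real.log_le_log
      · push_cast
        positivity
      · push_cast
        exact mul_le_of_le_one_right (by positivity) hlog2
    linarith
  have e2 : (zt z f : ℝ) + 1 ≤ Real.log f := by linarith
  refine ⟨?_, e2, (mert_le_succ _).trans e2⟩
  have e3 : (10 : ℝ) * 4 ^ (zt z f) ≤ f := by
    rw [← Real.log_le_log_iff (by positivity) hf, Real.log_mul (by norm_num) (by positivity),
      Real.log_pow]
    have h7 : Real.log 4 = 2 * Real.log 2 := by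
      have : (4 : ℝ) = 2 ^ 2 := by norm_num
      rw [this, Real.log_pow]
      norm_num
    rw [h7]
    have h8 : (zt z f : ℝ) * (2 * Real.log 2) ≤
        (Real.log 1000 + Real.log f) / 2 * (2 * Real.log 2) :=
      mul_le_mul_of_nonneg_right e1 (by positivity)
    linarith
  have e4 : 10 * primorial (zt z f) ≤ 10 * 4 ^ (zt z f) :=
    Nat.mul_le_mul_left 10 (primorial_le_four_pow _)
  have e5 : 10 * 4 ^ (zt z f) ≤ f := by exact_mod_cast e3
  exact e4.trans e5

end Pool.Agent.RH88.S34
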