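import Pool.Agent.RH88.Defs
import Pool.Agent.RG88.Def2
import Pool.Agent.RH88.ParS34

/-!
# The parameters at level `f`

`ζ = zt z f = z (2^(1000 f)) ≤ (1/2) log (log (2^(1000 f))) = (1/2) log (1000 f log 2)` for large `f` (`Adm`, and
`2^(1000 f) → ∞`), so `ζ + 1 ≤ log f` for large `f`. `mert ζ ≤ ζ + 1`: `∏ p/(p-1)` over the primes `p ≤ ζ` is at most
`∏ k/(k-1)` over `2 ≤ k ≤ ζ`, which telescopes (induction on `ζ`). `primorial ζ ≤ 4 ^ ζ` (`primorial_le_four_pow`)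
`≤ exp ((log 4)/2 * log (694 f)) = (694 f)^0.694 ≤ f/10` for large `f`.
-/

set_option autoImplicit false

namespace Pool.Agent.RH88

open MeasureTheory Filter Pool.Agent.RS88
open Pool.Agent.RG88 (Tz Gz Rt Rg Kz Badz)

theorem mert_le_succ (a : ℕ) : Pool.Agent.GM53.mert a ≤ a + 1 := S34.mert_le_succ a

theorem par {z : ℕ → ℕ} (hz : Adm z) : ∀ᶠ f : ℕ in atTop,
    10 * primorial (zt z f) ≤ f ∧ (zt z f : ℝ) + 1 ≤ Real.log f ∧
      Pool.Agent.GM53.mert (zt z f) ≤ Real.log f := S34.par hz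

end Pool.Agent.RH88
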