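import Pool.Agent.RG88.RzNS74

/-!
# Numerical facts for the large summand (proof, with `Main_F n` for `P`)
-/

set_option autoImplicit false

namespace Pool.Agent.RH88.S74

open MeasureTheory Filter Pool.Agent.RS88
open Pool.Agent.RG88.S74 (RzN_log RzN_log1 RzN_pow)

theorem RzN_ev4 (K : ℝ) (hK : 0 ≤ K) : ∀ᶠ q : ℕ in atTop, K * ((q : ℝ) + 1) ^ 4 ≤ 2 ^ q := by
  have h1 := tendsto_pow_const_div_const_pow_of_one_lt 4 (by norm_num : (1 : ℝ) < 2)
  have h2 : (0 : ℝ) < 1 / (16 * K + 16) := by positivity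
  filter_upwards [h1.eventually_lt_const h2, eventually_ge_atTop 1] with q hq hq1
  have hq1' : (1 : ℝ) ≤ q := by exact_mod_cast hq1
  have h3 : (0 : ℝ) < 2 ^ q := by positivity
  rw [div_lt_div_iff₀ h3 (by positivity)] at hq
  have h4 : ((q : ℝ) + 1) ^ 4 ≤ (2 * (q : ℝ)) ^ 4 :=
    pow_le_pow_left₀ (by positivity) (by linarith) 4
  have h5 := mul_le_mul_of_nonneg_left h4 hK
  have h6 : (0 : ℝ) ≤ (q : ℝ) ^ 4 := by positivity
  nlinarith

theorem RzN_exp5 {n : ℕ} (hn : 3 ≤ n) : Real.exp (-(5 * Real.log n)) = 1 / (n : ℝ) ^ 5 := by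
  have hn0 : (0 : ℝ) < n := by
    have : (3 : ℝ) ≤ n := by exact_mod_cast hn
    linarith
  have h6 : Real.exp (5 * Real.log n) = (n : ℝ) ^ 5 := by
    have h7 := Real.exp_nat_mul (Real.log n) 5
    rw [Real.exp_log hn0] at h7
    exact_mod_cast h7
  rw [Real.exp_neg, h6, one_div]

theorem RzN_end5 {n : ℕ} (hn : 3 ≤ n) :
    ((n : ℝ) + 1) * ((n : ℝ) + 1) * (1 / (n : ℝ) ^ 5) ≤ 1 / (n : ℝ) ^ 2 := by
  have hn3' : (3 : ℝ) ≤ n := by exact_mod_cast hn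
  have hn0 : (0 : ℝ) < n := by linarith
  rw [mul_one_div, div_le_div_iff₀ (by positivity) (by positivity)]
  have h9 : ((n : ℝ) + 1) * ((n : ℝ) + 1) ≤ (n : ℝ) ^ 3 := by nlinarith [sq_nonneg ((n : ℝ) - 3)]
  have h10 : (0 : ℝ) ≤ (n : ℝ) ^ 2 := by positivity
  nlinarith

theorem rh_num : Summable fun n : ℕ => ((n : ℝ) + 1) * ((Main_F n : ℝ) + 1) *
    ((2 : ℝ) ^ (2 ^ (Main_F n / 5)) *
      (1 - 1 / (Real.log n) ^ 2 / 2) ^ (2 ^ (Main_F n / 4) / (Main_F n + 1))) := by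
  have h1 : Summable fun n : ℕ => 1 / (n : ℝ) ^ 2 :=
    Real.summable_one_div_nat_pow.2 (by norm_num)
  refine Summable.of_norm_bounded_eventually_nat h1 ?_
  obtain ⟨Q, hQ⟩ := eventually_atTop.1 (RzN_ev4 (13 * 40 * 12800 ^ 3) (by positivity))
  filter_upwards [Main_tend.eventually_ge_atTop (40 * Q + 80), eventually_ge_atTop 3] with n hF hn
  have hFn : Main_F n ≤ n := by
    unfold Main_F
    exact (Nat.div_le_self _ _).trans (Nat.log_le_self 2 n)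
  set F := Main_F n with hFd
  have hq := hQ (F / 40) (by omega)
  have hlog1 := RzN_log1 hn
  have hlog0 : (0 : ℝ) < Real.log n := by linarith
  have hlog := RzN_log (by omega : 1 ≤ n)
  rw [← hFd] at hlog
  have hF1 : (F : ℝ) + 1 ≤ 40 * (((F / 40 : ℕ) : ℝ) + 1) := by
    have : F + 1 ≤ 40 * (F / 40 + 1) := by omega
    exact_mod_cast this
  set q : ℕ := F / 40 with hqd
  have hq0 : (0 : ℝ) ≤ (q : ℝ) := Nat.cast_nonneg _
  set M : ℕ := 2 ^ (F / 4) / (F + 1) with hM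
  set A : ℝ := 12800 * ((q : ℝ) + 1) with hA
  have hLA : Real.log n ≤ A := by
    rw [hA]
    linarith
  have hA1 : 1 ≤ A := by
    rw [hA]
    linarith
  set E : ℝ := 2 ^ (F / 5) with hE
  have hE1 : 1 ≤ E := one_le_pow₀ (by norm_num)
  -- the number of factors
  have hMl : (2 : ℝ) ^ (F / 4) ≤ ((F : ℝ) + 1) * ((M : ℝ) + 1) := by
    have h2 : 2 ^ (F / 4) < (F + 1) * (M + 1) := by
      have := Nat.lt_mul_div_succ (2 ^ (F / 4)) (by omega : 0 < F + 1)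
      rw [hM]
      exact this
    exact_mod_cast h2.le
  have hpow : E * (2 : ℝ) ^ q ≤ 2 ^ (F / 4) := by
    rw [hE, ← pow_add]
    exact pow_le_pow_right₀ (by norm_num) (by omega)
  have hP0 : (0 : ℝ) < (F : ℝ) + 1 := by positivity
  have hA3' : (0 : ℝ) ≤ A ^ 3 := by positivity
  have hq' : 13 * ((F : ℝ) + 1) * A ^ 3 ≤ 2 ^ q := by
    have h3 : 13 * ((F : ℝ) + 1) * A ^ 3 ≤ 13 * (40 * ((q : ℝ) + 1)) * A ^ 3 :=
      mul_le_mul_of_nonneg_right (by linarith) hA3'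
    have h2 : 13 * (40 * ((q : ℝ) + 1)) * A ^ 3 = 13 * 40 * 12800 ^ 3 * ((q : ℝ) + 1) ^ 4 := by
      rw [hA]
      ring
    rw [h2] at h3
    exact h3.trans hq
  have hME : 13 * A ^ 3 * E ≤ (M : ℝ) + 1 := by
    have h2 : E * (13 * ((F : ℝ) + 1) * A ^ 3) ≤ E * 2 ^ q :=
      mul_le_mul_of_nonneg_left hq' (by linarith)
    have h3 : ((F : ℝ) + 1) * (13 * A ^ 3 * E) ≤ ((F : ℝ) + 1) * ((M : ℝ) + 1) := by
      have h4 : ((F : ℝ) + 1) * (13 * A ^ 3 * E) = E * (13 * ((F : ℝ) + 1) * A ^ 3) := by ring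
      rw [h4]
      exact (h2.trans hpow).trans hMl
    exact le_of_mul_le_mul_left h3 hP0
  have hA2 : A ^ 2 ≤ A ^ 3 := pow_le_pow_right₀ hA1 (by norm_num)
  have hA3 : (1 : ℝ) ≤ A ^ 3 := one_le_pow₀ hA1
  have hMA : 2 * A ^ 2 * (E + 5 * A) ≤ M := by
    have h2 : 2 * A ^ 2 * (E + 5 * A) + 1 ≤ 13 * A ^ 3 * E := by
      have h3 : A ^ 2 * E ≤ A ^ 3 * E := mul_le_mul_of_nonneg_right hA2 (by linarith)
      have h4 : A ^ 3 * 1 ≤ A ^ 3 * E := mul_le_mul_of_nonneg_left hE1 (by positivity)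
      have h5 : 2 * A ^ 2 * (E + 5 * A) = 2 * (A ^ 2 * E) + 10 * (A ^ 3 * 1) := by ring
      have h6 : 13 * A ^ 3 * E = 13 * (A ^ 3 * E) := by ring
      rw [h5, h6]
      linarith
    linarith
  have hlM : 2 * Real.log n ^ 2 * (E + 5 * Real.log n) ≤ M := by
    refine le_trans ?_ hMA
    have h2 : Real.log n ^ 2 ≤ A ^ 2 := pow_le_pow_left₀ hlog0.le hLA 2
    have h3 : E + 5 * Real.log n ≤ E + 5 * A := by linarith
    exact mul_le_mul (by linarith) h3 (by positivity) (by positivity)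
  set x : ℝ := 1 / Real.log n ^ 2 / 2 with hx
  have hl2 : 0 < Real.log n ^ 2 := by positivity
  have hl21 : 1 ≤ Real.log n ^ 2 := one_le_pow₀ hlog1
  have hx1 : x ≤ 1 := by
    rw [hx, div_div, div_le_one (by positivity)]
    linarith
  have hxM : E + 5 * Real.log n ≤ x * M := by
    have h2 : x * M = (M : ℝ) / (2 * Real.log n ^ 2) := by
      rw [hx]
      field_simp
    rw [h2, le_div_iff₀ (by positivity)]
    linarith
  have h2E : (2 : ℝ) ^ (2 ^ (F / 5)) ≤ Real.exp E := by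
    have h2 : (2 : ℝ) ≤ Real.exp 1 := by
      have := Real.add_one_le_exp (1 : ℝ)
      linarith
    have h3 := pow_le_pow_left₀ (by norm_num : (0 : ℝ) ≤ 2) h2 (2 ^ (F / 5))
    refine h3.trans ?_
    rw [← Real.exp_nat_mul, Real.exp_le_exp, hE]
    push_cast
    rw [mul_one]
  have hterm : (2 : ℝ) ^ (2 ^ (F / 5)) * (1 - x) ^ M ≤ 1 / (n : ℝ) ^ 5 := by
    rw [← RzN_exp5 hn]
    calc (2 : ℝ) ^ (2 ^ (F / 5)) * (1 - x) ^ M ≤ Real.exp E * Real.exp (-(x * M)) :=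
          mul_le_mul h2E (RzN_pow hx1 M) (pow_nonneg (sub_nonneg.2 hx1) _) (Real.exp_pos _).le
      _ = Real.exp (E + -(x * M)) := (Real.exp_add _ _).symm
      _ ≤ Real.exp (-(5 * Real.log n)) := Real.exp_le_exp.2 (by linarith)
  have hnn : 0 ≤ (2 : ℝ) ^ (2 ^ (F / 5)) * (1 - x) ^ M :=
    mul_nonneg (by positivity) (pow_nonneg (sub_nonneg.2 hx1) _)
  have hFn' : (F : ℝ) + 1 ≤ (n : ℝ) + 1 := by
    have : (F : ℝ) ≤ n := by exact_mod_cast hFn
    linarith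
  rw [Real.norm_eq_abs, abs_of_nonneg (mul_nonneg (by positivity) hnn)]
  calc ((n : ℝ) + 1) * ((F : ℝ) + 1) * ((2 : ℝ) ^ (2 ^ (F / 5)) * (1 - x) ^ M) ≤
        ((n : ℝ) + 1) * ((n : ℝ) + 1) * (1 / (n : ℝ) ^ 5) :=
        mul_le_mul (mul_le_mul_of_nonneg_left hFn' (by positivity)) hterm hnn (by positivity)
    _ ≤ 1 / (n : ℝ) ^ 2 := RzN_end5 hn

end Pool.Agent.RH88.S74
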