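import Pool.Agent.RS88.Num
import Pool.Agent.RS88.Main
import Pool.Agent.RG88.RzN
import Pool.Agent.RH88.RzNS74
import Pool.Agent.RG88.Def2

/-!
# Numerical facts for the large summand (as `rz_num` in RG88/RzN, with `Main_F n` for `P`)
-/

set_option autoImplicit false

namespace Pool.Agent.RH88

open MeasureTheory Filter Pool.Agent.RS88
open Pool.Agent.RG88 (Tz Gz Rt Rg Kz Badz)

theorem rh_num : Summable fun n : ℕ => ((n : ℝ) + 1) * ((Main_F n : ℝ) + 1) *
    ((2 : ℝ) ^ (2 ^ (Main_F n / 5)) *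
      (1 - 1 / (Real.log n) ^ 2 / 2) ^ (2 ^ (Main_F n / 4) / (Main_F n + 1))) :=
  S74.rh_num

end Pool.Agent.RH88
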