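import Pool.Agent.RH88.RzPrS26
import Pool.Agent.RH88.Par
import Pool.Agent.RH88.DepM
import Pool.Agent.RS88.FillB
import Pool.Agent.RS88.Main

/-!
# The large summand: conditional probability of the good pattern (as RG88/RzPr)

`P = primorial (zt z f)`, `f = Main_F n`, `10 P ≤ f`, `mert (zt z f) ≤ log f` (`par` with `Main_tend`); `n² + P ≤ 2^(1000 f)` (`Main_hi`, `f ≥ 2`),
so `pz_lo`, `pz_up` of RH88/Defs apply to all `y + i`, `i < P`. `log n ≥ 320 f log 2 ≥ 220 f` (`Main_lo`), so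
`(1 - log f/(220 f))^(f/10) ≥ 1/2` eventually fails but it is `≥ exp (-2 log f/2200) ≥ f^(-1/1000)`, and
`f^(-1/1000)/(3 log n) ≥ 1/(log n)²` for large `n`.
-/

set_option autoImplicit false

namespace Pool.Agent.RH88

open MeasureTheory Filter Pool.Agent.RS88
open Pool.Agent.RG88 (Tz Gz Rt Rg Kz Badz)

theorem rg_pr {z : ℕ → ℕ} (hz : Adm z) : ∀ᶠ n : ℕ in atTop, ∀ (c : ℕ → ℕ),
    (∀ k, c k < primorial (zt z (Main_F n)) ∧ (c k).Coprime (primorial (zt z (Main_F n)))) →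
    ∀ y : ℕ, n < y → y < n ^ 2 →
    ∀ E : Set (ℕ → Bool), Dep ((Finset.range y : Finset ℕ) : Set ℕ) E →
    1 / (Real.log n) ^ 2 * (mz z).real E ≤
      (mz z).real (E ∩ {ω | Rg (primorial (zt z (Main_F n))) c ω y}) :=
  rg_pr26 hz

end Pool.Agent.RH88
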