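import Pool.Agent.RH88.Blk
import Pool.Agent.RG88.RzDep
import Pool.Agent.RG88.RzCnt
import Pool.Agent.RH88.RzPr
import Pool.Agent.RH88.RzN
import Pool.Agent.RG88.Cop
import Pool.Agent.RH88.ReszS93

/-!
# Many `m` with `r(n - m)` prime to `P` (copy of RG88/Resz)

`P = primorial (zt z f)`, `f = Main_F n`, depends on `n`, `P ≤ f` (`par`). Union over `G ≤ n`, `j ≤ P ≤ f`; number of trials
`2^(f/4)/(f+1) ≤ 2^(f/4)/(P+1)`; `rh_num`. `RG88.good_class` for the limit `zt z f`.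
-/

set_option autoImplicit false

namespace Pool.Agent.RH88

open MeasureTheory Filter Pool.Agent.RS88
open Pool.Agent.RG88 (Tz Gz Rt Rg Kz Badz)

open Classical in
theorem resz {z : ℕ → ℕ} (hz : Adm z) (L Z : ℕ → ℕ) (hZ : ∀ᶠ n : ℕ in atTop, 4 * Z n ≤ n) :
    ∀ᵐ ω ∂(mz z), ∀ᶠ n : ℕ in atTop, ∀ G ≤ n,
      n < ct ω (n ^ 2) → 2 * ct ω (n + 1) ≤ n →
      2 ^ (Main_F n / 4) ≤ ((Msq ω (L n) (Z n)).filter (fun m => m % 2 = n % 2)).card →
      2 ^ (Main_F n / 5) ≤ (Kz (primorial (zt z (Main_F n))) G n (L n) (Z n) ω).card :=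
  S93.resz hz L Z hZ

end Pool.Agent.RH88
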