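import Pool.Agent.RH88.MainZS90
import Pool.Agent.RH88.MFz
import Pool.Agent.RH88.Resz
import Pool.Agent.RG88.Case
import Pool.Agent.RG88.RzN
import Pool.Agent.RH88.CntZ
import Pool.Agent.RS88.Slope
import Pool.Agent.RS88.Main

/-!
# Assembly (copy of RG88/MainZS90, with `P = primorial (zt z (Main_F n))`)

`resz` is used for `(2^f/f, 2^(5f))` and `(2^(16f)/(16f), 2^(80f))`, `f = Main_F n`, both with the same `P`; `badz_le` with this `f`
(`n < 2^(320 (f+1)) ≤ 2^(1000 f)`, `Main_hi`); `mfz hz 0`, `mfz hz 1` for `f` and `16 f`.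
-/

set_option autoImplicit false

namespace Pool.Agent.RH88

open MeasureTheory Filter Pool.Agent.RS88
open Pool.Agent.RG88 (Tz Gz Rt Rg Kz Badz)

theorem mainz {z : ℕ → ℕ} (hz : Adm z) : ∀ᵐ ω ∂(mz z), ∀ᶠ n : ℕ in atTop,
    ∃ k m : ℕ, 2 ≤ k ∧ 2 ≤ m ∧ k + m = n ∧ ω (res ω k) = true ∧ IsSquare (res ω m) :=
  S90.mainz hz

end Pool.Agent.RH88
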