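import Pool.Agent.RH88.Par
import Pool.Agent.RG88.CopCnt
import Pool.Agent.RG88.Mean

/-!
# The mean number of elements in an interval, growing sieving limit

`z` is monotone, so `[u, v)` is the disjoint union of the intervals `I_w = {m ∈ [u, v) : z m = w}`, `w ≤ ζ = zt z f` (`m ≤ 2^(1000 f)`).
For large `f`, `mert ζ ≤ log f ≤ log (2^(f/8)) ≤ log m`, so by `RG88.pz_eq` `pz z m = mert w / log m` for `m ∈ I_w` prime to
`primorial w`, else `0`. By `RG88.cop_count`, `mert w * #(I_w, prime to primorial w)` is `|I_w|` up to `mert w * primorial w ≤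
mert ζ * primorial ζ ≤ f * log f`. So `Σ pz ≤ (1/log u) (v - u + (ζ + 1) f log f)` and `Σ pz ≥ (1/log v) (v - u - (ζ + 1) f log f)`, and
`(ζ + 1) f log f ≤ f ^ 3 ≤ (v - u)/(2 f²)` as `v - u ≥ 2^(f/8)` (`mean_growth94` in RG88/Mean is similar). (An interval of
naturals: `I_w = Ico a b` with `a`, `b` from monotonicity, or induct on `ζ` splitting off the top value.)
-/

set_option autoImplicit false

namespace Pool.Agent.RH88

open MeasureTheory Filter Pool.Agent.RS88
open Pool.Agent.RG88 (Tz Gz Rt Rg Kz Badz)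

/-- the weight of `m` in the sieve of level `z m` -/
noncomputable def gS55 (z : ℕ → ℕ) (m : ℕ) : ℝ :=
  if m.Coprime (primorial (z m)) then Pool.Agent.GM53.mert (z m) else 0

theorem gS55_nonneg (z : ℕ → ℕ) (m : ℕ) : 0 ≤ gS55 z m := by
  unfold gS55
  split_ifs
  · linarith [Pool.Agent.RG88.one_le_mert (z m)]
  · exact le_rfl

/-- one block of constant sieving limit -/
theorem blockS55 {z : ℕ → ℕ} {K a v : ℕ} (hav : a ≤ v) (hK : ∀ m ∈ Finset.Ico a v, z m = K) :
    |∑ m ∈ Finset.Ico a v, gS55 z m - ((v : ℝ) - a)| ≤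
      Pool.Agent.GM53.mert K * primorial K := by
  classical
  have hM1 := Pool.Agent.RG88.one_le_mert K
  have hM0 : 0 < Pool.Agent.GM53.mert K := by linarith
  have hs : ∑ m ∈ Finset.Ico a v, gS55 z m = Pool.Agent.GM53.mert K *
      (((Finset.Ico a v).filter (fun m => m.Coprime (primorial K))).card : ℝ) := by
    have h1 : ∑ m ∈ Finset.Ico a v, gS55 z m =
        ∑ m ∈ Finset.Ico a v, if m.Coprime (primorial K) then Pool.Agent.GM53.mert K else 0 := by
      refine Finset.sum_congr rfl fun m hm => ?_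
      unfold gS55
      rw [hK m hm]
    rw [h1, ← Finset.sum_filter, Finset.sum_const, nsmul_eq_mul, mul_comm]
  have hc := Pool.Agent.RG88.cop_count K hav
  have h2 : ∑ m ∈ Finset.Ico a v, gS55 z m - ((v : ℝ) - a) = Pool.Agent.GM53.mert K *
      ((((Finset.Ico a v).filter (fun m => m.Coprime (primorial K))).card : ℝ) -
        ((v : ℝ) - a) / Pool.Agent.GM53.mert K) := by
    rw [hs, mul_sub, mul_div_cancel₀ _ hM0.ne']
  rw [h2, abs_mul, abs_of_pos hM0]
  exact mul_le_mul_of_nonneg_left hc hM0.le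

/-- monotone sieving limit: one error term for every value -/
theorem sumS55 {z : ℕ → ℕ} (hz : Monotone z) {B : ℝ} :
    ∀ K : ℕ, (∀ w < K, Pool.Agent.GM53.mert w * primorial w ≤ B) → ∀ u v : ℕ, u ≤ v →
      (∀ m ∈ Finset.Ico u v, z m < K) →
      |∑ m ∈ Finset.Ico u v, gS55 z m - ((v : ℝ) - u)| ≤ K * B := by
  intro K
  induction K with
  | zero =>
    intro _ u v huv h
    have hv : v = u := by
      by_contra hne
      have h1 := h u (Finset.mem_Ico.2 ⟨le_rfl, by omega⟩)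
      omega
    subst hv
    simp
  | succ K ih =>
    intro hB u v huv h
    classical
    have hex : ∃ m, u ≤ m ∧ (v ≤ m ∨ K ≤ z m) := ⟨v, huv, Or.inl le_rfl⟩
    obtain ⟨a, ha⟩ : ∃ a, a = Nat.find hex := ⟨_, rfl⟩
    have ha1 : u ≤ a ∧ (v ≤ a ∨ K ≤ z a) := by
      rw [ha]
      exact Nat.find_spec hex
    have ha2 : a ≤ v := by
      rw [ha]
      exact Nat.find_min' hex ⟨huv, Or.inl le_rfl⟩
    have hlow : ∀ m ∈ Finset.Ico u a, z m < K := by
      intro m hm
      rw [Finset.mem_Ico] at hm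
      have h1 : ¬ (u ≤ m ∧ (v ≤ m ∨ K ≤ z m)) := by
        apply Nat.find_min hex
        rw [← ha]
        exact hm.2
      by_contra h2
      exact h1 ⟨hm.1, Or.inr (not_lt.1 h2)⟩
    have hhigh : ∀ m ∈ Finset.Ico a v, z m = K := by
      intro m hm
      rw [Finset.mem_Ico] at hm
      have h1 : K ≤ z a := by
        rcases ha1.2 with h2 | h2
        · omega
        · exact h2
      have h3 := hz hm.1
      have h4 := h m (Finset.mem_Ico.2 ⟨ha1.1.trans hm.1, hm.2⟩)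
      omega
    have e1 := ih (fun w hw => hB w (hw.trans (Nat.lt_succ_self K))) u a ha1.1 hlow
    have e2 := (blockS55 ha2 hhigh).trans (hB K (Nat.lt_succ_self K))
    have e3 : ∑ m ∈ Finset.Ico u v, gS55 z m - ((v : ℝ) - u) =
        (∑ m ∈ Finset.Ico u a, gS55 z m - ((a : ℝ) - u)) +
          (∑ m ∈ Finset.Ico a v, gS55 z m - ((v : ℝ) - a)) := by
      rw [← Finset.sum_Ico_consecutive _ ha1.1 ha2]
      ring
    rw [e3]
    refine (abs_add_le _ _).trans ?_
    push_cast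
    linarith

theorem growS55 : ∀ᶠ f : ℕ in atTop, 2 * (f : ℝ) ^ 5 ≤ 2 ^ (f / 8) := by
  have h1 : Tendsto (fun n : ℕ => (n : ℝ) ^ 5 / (2 : ℝ) ^ n) atTop (nhds 0) :=
    tendsto_pow_const_div_const_pow_of_one_lt 5 (by norm_num)
  have h2 : ∀ᶠ n : ℕ in atTop, (n : ℝ) ^ 5 / (2 : ℝ) ^ n < 1 / (2 * 16 ^ 5) :=
    h1.eventually (gt_mem_nhds (by positivity))
  have h3 : Tendsto (fun f : ℕ => f / 8) atTop atTop := Nat.tendsto_div_const_atTop (by norm_num)
  have h4 := h3.eventually (h2.and (eventually_ge_atTop 1))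
  filter_upwards [h4] with f hf
  obtain ⟨h5, h6⟩ := hf
  have h7 : (1 : ℝ) ≤ ((f / 8 : ℕ) : ℝ) := by exact_mod_cast h6
  have h8 : (f : ℝ) ≤ 8 * ((f / 8 : ℕ) : ℝ) + 8 := by
    have : f ≤ 8 * (f / 8) + 8 := by omega
    exact_mod_cast this
  have h9 : (f : ℝ) ≤ 16 * ((f / 8 : ℕ) : ℝ) := by linarith
  have h10 : (f : ℝ) ^ 5 ≤ 16 ^ 5 * ((f / 8 : ℕ) : ℝ) ^ 5 := by
    rw [← mul_pow]
    exact pow_le_pow_left₀ (Nat.cast_nonneg f) h9 5
  rw [div_lt_div_iff₀ (by positivity) (by positivity)] at h5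
  nlinarith

theorem mean_z {z : ℕ → ℕ} (hz : Adm z) : ∀ᶠ f : ℕ in atTop, ∀ u v : ℕ, u < v →
    v ≤ 2 ^ (1000 * f) → 2 ^ (f / 8) ≤ u → 2 ^ (f / 8) ≤ v - u →
    (1 - 1 / (2 * (f : ℝ) ^ 2)) * (((v : ℝ) - u) / Real.log v) ≤ ∑ m ∈ Finset.Ico u v, pz z m ∧
      ∑ m ∈ Finset.Ico u v, pz z m ≤
        (1 + 1 / (2 * (f : ℝ) ^ 2)) * (((v : ℝ) - u) / Real.log u) := by
  classical
  filter_upwards [par hz, growS55, eventually_ge_atTop 16] with f hpar hg hf16
  intro u v huv hvf hu hv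
  obtain ⟨hp1, hp2, hp3⟩ := hpar
  obtain ⟨ζ, hζ⟩ : ∃ ζ, ζ = zt z f := ⟨_, rfl⟩
  rw [← hζ] at hp1 hp2 hp3
  have hf16R : (16 : ℝ) ≤ f := by exact_mod_cast hf16
  have hf : (0 : ℝ) < f := by linarith
  have hlogf : Real.log f ≤ f := (Real.log_le_sub_one_of_pos hf).trans (by linarith)
  have hL3 : 3 ≤ 2 ^ (f / 8) := by
    have : 2 ≤ f / 8 := by omega
    calc 3 ≤ 2 ^ 2 := by norm_num
      _ ≤ 2 ^ (f / 8) := Nat.pow_le_pow_right (by norm_num) this
  have hu3 : 3 ≤ u := hL3.trans hu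
  have huR : (3 : ℝ) ≤ u := by exact_mod_cast hu3
  have huvR : (u : ℝ) < v := by exact_mod_cast huv
  have huL : (2 : ℝ) ^ (f / 8) ≤ (u : ℝ) := by exact_mod_cast hu
  have hd : (2 : ℝ) ^ (f / 8) ≤ (v : ℝ) - u := by
    have : ((2 ^ (f / 8) : ℕ) : ℝ) ≤ ((v - u : ℕ) : ℝ) := by exact_mod_cast hv
    rw [Nat.cast_sub huv.le] at this
    push_cast at this
    exact this
  have hfu : (f : ℝ) ≤ u := by
    have h1 : (f : ℝ) ≤ 2 * (f : ℝ) ^ 5 := by
      have h2 : (1 : ℝ) ≤ (f : ℝ) ^ 4 := one_le_pow₀ (by linarith)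
      have h3 : (f : ℝ) * 1 ≤ f * (f : ℝ) ^ 4 := mul_le_mul_of_nonneg_left h2 hf.le
      have h4 : (f : ℝ) * (f : ℝ) ^ 4 = (f : ℝ) ^ 5 := by ring
      nlinarith
    linarith
  have hlogfu : Real.log f ≤ Real.log u := Real.log_le_log hf hfu
  have hlu : 0 < Real.log u := Real.log_pos (by linarith)
  have hlv : 0 < Real.log v := hlu.trans_le (Real.log_le_log (by linarith) huvR.le)
  have hzm : ∀ m ∈ Finset.Ico u v, z m ≤ ζ := by
    intro m hm
    rw [Finset.mem_Ico] at hm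
    rw [hζ]
    exact hz.1 (hm.2.le.trans hvf)
  have hpz : ∀ m ∈ Finset.Ico u v, pz z m = gS55 z m / Real.log m := by
    intro m hm
    have hmz := hzm m hm
    rw [Finset.mem_Ico] at hm
    have hmu : (u : ℝ) ≤ m := by exact_mod_cast hm.1
    have h1 : Pool.Agent.GM53.mert (z m) ≤ Real.log m :=
      (mert_mono hmz).trans (hp3.trans (hlogfu.trans (Real.log_le_log (by linarith) hmu)))
    unfold pz
    rw [Pool.Agent.RG88.pz_eq (hu3.trans hm.1) h1]
    unfold gS55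
    split_ifs
    · rfl
    · rw [zero_div]
  have hB : ∀ w < ζ + 1, Pool.Agent.GM53.mert w * primorial w ≤ (f : ℝ) * f := by
    intro w hw
    have hw' : w ≤ ζ := Nat.lt_succ_iff.1 hw
    have h1 : Pool.Agent.GM53.mert w ≤ f := (mert_mono hw').trans (hp3.trans hlogf)
    have h2 : primorial w ≤ primorial ζ :=
      Nat.le_of_dvd (primorial_pos ζ) (primorial_dvd hw')
    have h3 : (primorial w : ℝ) ≤ f := by
      have : primorial w ≤ f := by omega
      exact_mod_cast this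
    exact mul_le_mul h1 h3 (Nat.cast_nonneg _) hf.le
  have hsum := sumS55 hz.1 (ζ + 1) hB u v huv.le
    (fun m hm => Nat.lt_succ_of_le (hzm m hm))
  have herr : ((ζ + 1 : ℕ) : ℝ) * ((f : ℝ) * f) ≤ 1 / (2 * (f : ℝ) ^ 2) * ((v : ℝ) - u) := by
    have h1 : ((ζ + 1 : ℕ) : ℝ) ≤ f := by
      push_cast
      linarith
    have h2 : ((ζ + 1 : ℕ) : ℝ) * ((f : ℝ) * f) ≤ (f : ℝ) * ((f : ℝ) * f) :=
      mul_le_mul_of_nonneg_right h1 (by positivity)
    refine h2.trans ?_
    rw [one_div, inv_mul_eq_div, le_div_iff₀ (by positivity)]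
    have h3 : (f : ℝ) * ((f : ℝ) * f) * (2 * (f : ℝ) ^ 2) = 2 * (f : ℝ) ^ 5 := by ring
    rw [h3]
    exact hg.trans hd
  obtain ⟨hs1, hs2⟩ := abs_le.1 hsum
  rw [Finset.sum_congr rfl hpz]
  constructor
  · have h5 : (∑ m ∈ Finset.Ico u v, gS55 z m) / Real.log v ≤
        ∑ m ∈ Finset.Ico u v, gS55 z m / Real.log m := by
      rw [Finset.sum_div]
      refine Finset.sum_le_sum fun m hm => ?_
      rw [Finset.mem_Ico] at hm
      have hmu : (u : ℝ) ≤ m := by exact_mod_cast hm.1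
      have hmv : (m : ℝ) ≤ v := by exact_mod_cast hm.2.le
      have hlm : 0 < Real.log m := hlu.trans_le (Real.log_le_log (by linarith) hmu)
      exact div_le_div_of_nonneg_left (gS55_nonneg z m) hlm (Real.log_le_log (by linarith) hmv)
    refine le_trans ?_ h5
    rw [mul_div_assoc', div_le_div_iff_of_pos_right hlv]
    linarith
  · have h5 : ∑ m ∈ Finset.Ico u v, gS55 z m / Real.log m ≤
        (∑ m ∈ Finset.Ico u v, gS55 z m) / Real.log u := by
      rw [Finset.sum_div]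
      refine Finset.sum_le_sum fun m hm => ?_
      rw [Finset.mem_Ico] at hm
      have hmu : (u : ℝ) ≤ m := by exact_mod_cast hm.1
      exact div_le_div_of_nonneg_left (gS55_nonneg z m) hlu (Real.log_le_log (by linarith) hmu)
    refine h5.trans ?_
    rw [mul_div_assoc', div_le_div_iff_of_pos_right hlu]
    linarith

end Pool.Agent.RH88
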