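import Pool.Agent.RH88.Par
import Pool.Agent.RG88.CopCnt
import Pool.Agent.RG88.Mean

/-!
# The mean number of elements in an interval, growing sieving limit
-/

set_option autoImplicit false

namespace Pool.Agent.RH88.S19

open MeasureTheory Filter Pool.Agent.RS88
open Pool.Agent.GM53 (mert mert_pos)

theorem cut {z : ℕ → ℕ} (hz : Monotone z) (k : ℕ) {u b : ℕ} (h : u ≤ b) :
    ∃ c, u ≤ c ∧ c ≤ b ∧ (∀ m, u ≤ m → m < c → z m < k) ∧ ∀ m, c ≤ m → m < b → k ≤ z m := by
  induction b, h using Nat.le_induction with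
  | base =>
    exact ⟨u, le_rfl, le_rfl, fun m h1 h2 => absurd h1 (by omega), fun m h1 h2 => absurd h1 (by omega)⟩
  | succ b hb ih =>
    obtain ⟨c, h1, h2, h3, h4⟩ := ih
    by_cases hk : k ≤ z b
    · refine ⟨c, h1, by omega, h3, fun m m1 m2 => ?_⟩
      rcases Nat.lt_succ_iff_lt_or_eq.1 m2 with m3 | m3
      · exact h4 m m1 m3
      · rw [m3]
        exact hk
    · refine ⟨b + 1, by omega, le_rfl, fun m _ m1 => ?_, fun m m1 m2 => absurd m1 (by omega)⟩
      exact lt_of_le_of_lt (hz (by omega : m ≤ b)) (not_le.1 hk)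

theorem block {w : ℕ} {z : ℕ → ℕ} {u v a b : ℕ} {E : ℝ} (hu : 3 ≤ u) (hua : u ≤ a) (hab : a ≤ b)
    (hbv : b ≤ v) (hw : ∀ m, a ≤ m → m < b → z m = w) (hlog : mert w ≤ Real.log u)
    (hE : mert w * primorial w ≤ E) :
    ((b : ℝ) - a - E) / Real.log v ≤ ∑ m ∈ Finset.Ico a b, pz z m ∧
      ∑ m ∈ Finset.Ico a b, pz z m ≤ ((b : ℝ) - a + E) / Real.log u := by
  classical
  have hM0 : 0 < mert w := mert_pos w
  have hM1 : 1 ≤ mert w := Pool.Agent.RG88.one_le_mert w
  have huR : (3 : ℝ) ≤ u := by exact_mod_cast hu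
  have huv : (u : ℝ) ≤ v := by exact_mod_cast (hua.trans (hab.trans hbv))
  have hlu : 0 < Real.log u := by linarith
  have hlv : 0 < Real.log v := hlu.trans_le (Real.log_le_log (by linarith) huv)
  have hsum : ∑ m ∈ Finset.Ico a b, pz z m =
      ∑ m ∈ (Finset.Ico a b).filter (fun m => m.Coprime (primorial w)),
        mert w / Real.log m := by
    rw [Finset.sum_filter]
    refine Finset.sum_congr rfl fun m hm => ?_
    rw [Finset.mem_Ico] at hm
    have hmu : (u : ℝ) ≤ m := by exact_mod_cast hua.trans hm.1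
    have e1 : pz z m = Pool.Agent.RG88.pz w m := by
      unfold pz
      rw [hw m hm.1 hm.2]
    rw [e1]
    exact Pool.Agent.RG88.pz_eq (hu.trans (hua.trans hm.1))
      (hlog.trans (Real.log_le_log (by linarith) hmu))
  have hcc := Pool.Agent.RG88.cop_count w hab
  obtain ⟨hc1, hc2⟩ := abs_le.1 hcc
  set N : ℝ := (((Finset.Ico a b).filter (fun m => m.Coprime (primorial w))).card : ℝ) with hN
  have hMN1 : ((b : ℝ) - a) - E ≤ mert w * N := by
    have h5 : ((b : ℝ) - a) / mert w - primorial w ≤ N := by linarith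
    have h6 := mul_le_mul_of_nonneg_left h5 hM0.le
    rw [mul_sub, mul_div_cancel₀ _ hM0.ne'] at h6
    linarith
  have hMN2 : mert w * N ≤ ((b : ℝ) - a) + E := by
    have h5 : N ≤ ((b : ℝ) - a) / mert w + primorial w := by linarith
    have h6 := mul_le_mul_of_nonneg_left h5 hM0.le
    rw [mul_add, mul_div_cancel₀ _ hM0.ne'] at h6
    linarith
  rw [hsum]
  constructor
  · have h5 : N * (mert w / Real.log v) ≤
        ∑ m ∈ (Finset.Ico a b).filter (fun m => m.Coprime (primorial w)), mert w / Real.log m := by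
      rw [hN, ← nsmul_eq_mul]
      refine Finset.card_nsmul_le_sum _ _ _ fun m hm => ?_
      rw [Finset.mem_filter, Finset.mem_Ico] at hm
      have hmu : (u : ℝ) ≤ m := by exact_mod_cast hua.trans hm.1.1
      have hmv : (m : ℝ) ≤ v := by exact_mod_cast hm.1.2.le.trans hbv
      have hlm : 0 < Real.log m := hlu.trans_le (Real.log_le_log (by linarith) hmu)
      exact div_le_div_of_nonneg_left hM0.le hlm (Real.log_le_log (by linarith) hmv)
    refine le_trans ?_ h5
    rw [mul_div_assoc', div_le_div_iff_of_pos_right hlv]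
    linarith
  · have h5 : ∑ m ∈ (Finset.Ico a b).filter (fun m => m.Coprime (primorial w)),
        mert w / Real.log m ≤ N * (mert w / Real.log u) := by
      rw [hN, ← nsmul_eq_mul]
      refine Finset.sum_le_card_nsmul _ _ _ fun m hm => ?_
      rw [Finset.mem_filter, Finset.mem_Ico] at hm
      have hmu : (u : ℝ) ≤ m := by exact_mod_cast hua.trans hm.1.1
      exact div_le_div_of_nonneg_left hM0.le hlu (Real.log_le_log (by linarith) hmu)
    refine h5.trans ?_
    rw [mul_div_assoc', div_le_div_iff_of_pos_right hlu]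
    linarith

theorem ind {z : ℕ → ℕ} (hz : Monotone z) {u v : ℕ} {E : ℝ} (hu : 3 ≤ u) :
    ∀ k : ℕ, (∀ w < k, mert w ≤ Real.log u) → (∀ w < k, mert w * primorial w ≤ E) →
      ∀ b, u ≤ b → b ≤ v → (∀ m, u ≤ m → m < b → z m < k) →
      ((b : ℝ) - u - k * E) / Real.log v ≤ ∑ m ∈ Finset.Ico u b, pz z m ∧
      ∑ m ∈ Finset.Ico u b, pz z m ≤ ((b : ℝ) - u + k * E) / Real.log u := by
  intro k
  induction k with
  | zero =>
    intro _ _ b hub hbv hb
    have e : b = u := by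
      by_contra hne
      exact absurd (hb u le_rfl (by omega)) (by omega)
    subst e
    simp
  | succ k ih =>
    intro h1 h2 b hub hbv hb
    obtain ⟨c, c1, c2, c3, c4⟩ := cut hz k hub
    obtain ⟨i1, i2⟩ := ih (fun w hw => h1 w (by omega)) (fun w hw => h2 w (by omega)) c c1
      (c2.trans hbv) c3
    obtain ⟨j1, j2⟩ := block (z := z) (w := k) hu c1 c2 hbv (fun m m1 m2 => by
      have e1 := c4 m m1 m2
      have e2 := hb m (c1.trans m1) m2
      omega) (h1 k (by omega)) (h2 k (by omega))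
    rw [← Finset.sum_Ico_consecutive (fun m => pz z m) c1 c2]
    constructor
    · refine le_trans (le_of_eq ?_) (add_le_add i1 j1)
      rw [← add_div]
      congr 1
      push_cast
      ring
    · refine le_trans (add_le_add i2 j2) (le_of_eq ?_)
      rw [← add_div]
      congr 1
      push_cast
      ring

theorem growth : ∀ᶠ f : ℕ in atTop, 2 * (f : ℝ) ^ 5 ≤ 2 ^ (f / 8) := by
  have h1 : Tendsto (fun n : ℕ => (n : ℝ) ^ 5 / (2 : ℝ) ^ n) atTop (nhds 0) :=
    tendsto_pow_const_div_const_pow_of_one_lt 5 (by norm_num)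
  have h2 : ∀ᶠ n : ℕ in atTop, (n : ℝ) ^ 5 / (2 : ℝ) ^ n < 1 / (2 * 16 ^ 5) :=
    h1.eventually (gt_mem_nhds (by positivity))
  have h3 : Tendsto (fun f : ℕ => f / 8) atTop atTop := Nat.tendsto_div_const_atTop (by norm_num)
  filter_upwards [h3.eventually (h2.and (eventually_ge_atTop 1))] with f hf
  obtain ⟨h5, h6⟩ := hf
  have h8 : (f : ℝ) ≤ 16 * ((f / 8 : ℕ) : ℝ) := by
    have : f ≤ 16 * (f / 8) := by omega
    exact_mod_cast this
  have h9 : (f : ℝ) ^ 5 ≤ (16 * ((f / 8 : ℕ) : ℝ)) ^ 5 :=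
    pow_le_pow_left₀ (Nat.cast_nonneg f) h8 5
  rw [div_lt_div_iff₀ (by positivity) (by positivity)] at h5
  rw [mul_pow] at h9
  linarith

theorem mean_z {z : ℕ → ℕ} (hz : Adm z) : ∀ᶠ f : ℕ in atTop, ∀ u v : ℕ, u < v →
    v ≤ 2 ^ (1000 * f) → 2 ^ (f / 8) ≤ u → 2 ^ (f / 8) ≤ v - u →
    (1 - 1 / (2 * (f : ℝ) ^ 2)) * (((v : ℝ) - u) / Real.log v) ≤ ∑ m ∈ Finset.Ico u v, pz z m ∧
      ∑ m ∈ Finset.Ico u v, pz z m ≤
        (1 + 1 / (2 * (f : ℝ) ^ 2)) * (((v : ℝ) - u) / Real.log u) := by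
  filter_upwards [par hz, growth, eventually_ge_atTop 16] with f hp hg hf16
  obtain ⟨hp1, hp2, hp3⟩ := hp
  intro u v huv hvf hu hv
  have hfR : (16 : ℝ) ≤ f := by exact_mod_cast hf16
  have hf : (0 : ℝ) < f := by linarith
  have hL3 : 3 ≤ 2 ^ (f / 8) := by
    have : 2 ≤ f / 8 := by omega
    calc 3 ≤ 2 ^ 2 := by norm_num
      _ ≤ 2 ^ (f / 8) := Nat.pow_le_pow_right (by norm_num) this
  have hu3 : 3 ≤ u := hL3.trans hu
  have huR : (3 : ℝ) ≤ u := by exact_mod_cast hu3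
  have huvR : (u : ℝ) < v := by exact_mod_cast huv
  have huL : (2 : ℝ) ^ (f / 8) ≤ u := by exact_mod_cast hu
  have hd : (2 : ℝ) ^ (f / 8) ≤ (v : ℝ) - u := by
    have : ((2 ^ (f / 8) : ℕ) : ℝ) ≤ ((v - u : ℕ) : ℝ) := by exact_mod_cast hv
    rw [Nat.cast_sub huv.le] at this
    push_cast at this
    exact this
  have hff : (f : ℝ) ≤ 2 ^ (f / 8) := by
    have e1 : (1 : ℝ) ≤ (f : ℝ) ^ 4 := one_le_pow₀ (by linarith)
    have e2 : (f : ℝ) * 1 ≤ f * (f : ℝ) ^ 4 := mul_le_mul_of_nonneg_left e1 hf.le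
    have e3 : f * (f : ℝ) ^ 4 = (f : ℝ) ^ 5 := by ring
    have e4 : (0 : ℝ) ≤ (f : ℝ) ^ 5 := by positivity
    linarith
  have hlog : Real.log f ≤ Real.log u := Real.log_le_log hf (hff.trans huL)
  have hlogf : Real.log f ≤ f := (Real.log_le_sub_one_of_pos hf).trans (by linarith)
  have hlf0 : 0 ≤ Real.log f := Real.log_nonneg (by linarith)
  have hlu : 0 < Real.log u := Real.log_pos (by linarith)
  have hlv : 0 < Real.log v := hlu.trans_le (Real.log_le_log (by linarith) huvR.le)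
  set ζ := zt z f with hζ
  set E : ℝ := mert ζ * primorial ζ with hE
  have hprim : (primorial ζ : ℝ) ≤ f := by
    have : primorial ζ ≤ f := by omega
    exact_mod_cast this
  have hE2 : E ≤ f * f := by
    rw [hE]
    exact mul_le_mul (hp3.trans hlogf) hprim (Nat.cast_nonneg _) hf.le
  have hE0 : 0 ≤ E := by
    rw [hE]
    exact mul_nonneg (mert_pos ζ).le (Nat.cast_nonneg _)
  have hkE : ((ζ + 1 : ℕ) : ℝ) * E ≤ 1 / (2 * (f : ℝ) ^ 2) * ((v : ℝ) - u) := by
    have e1 : ((ζ + 1 : ℕ) : ℝ) ≤ f := by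
      push_cast
      exact hp2.trans hlogf
    have e2 : ((ζ + 1 : ℕ) : ℝ) * E ≤ f * (f * f) := mul_le_mul e1 hE2 hE0 hf.le
    rw [one_div, inv_mul_eq_div, le_div_iff₀ (by positivity)]
    have e3 : ((ζ + 1 : ℕ) : ℝ) * E * (2 * (f : ℝ) ^ 2) ≤ f * (f * f) * (2 * (f : ℝ) ^ 2) :=
      mul_le_mul_of_nonneg_right e2 (by positivity)
    have e4 : f * (f * f) * (2 * (f : ℝ) ^ 2) = 2 * (f : ℝ) ^ 5 := by ring
    linarith
  obtain ⟨r1, r2⟩ := ind (z := z) (v := v) (E := E) hz.1 hu3 (ζ + 1)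
    (fun w hw => ((mert_mono (by omega : w ≤ ζ)).trans hp3).trans hlog)
    (fun w hw => by
      rw [hE]
      refine mul_le_mul (mert_mono (by omega : w ≤ ζ)) ?_ (Nat.cast_nonneg _) (mert_pos ζ).le
      have := Nat.le_of_dvd (primorial_pos ζ) (primorial_dvd (by omega : w ≤ ζ))
      exact_mod_cast this)
    v huv.le le_rfl (fun m _ m2 => by
      have : z m ≤ ζ := hz.1 (by omega : m ≤ 2 ^ (1000 * f))
      omega)
  constructor
  · refine le_trans ?_ r1
    rw [mul_div_assoc', div_le_div_iff_of_pos_right hlv]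
    linarith
  · refine r2.trans ?_
    rw [mul_div_assoc', div_le_div_iff_of_pos_right hlu]
    linarith

end Pool.Agent.RH88.S19
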