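import Pool.Agent.RH88.Par
import Pool.Agent.RG88.CopCnt
import Pool.Agent.RG88.Mean

/-!
# The mean number of elements in an interval, growing sieving limit (helper34)
-/

set_option autoImplicit false

namespace Pool.Agent.RH88.S34

open MeasureTheory Filter Pool.Agent.RS88 Pool.Agent.RH88
open Pool.Agent.GM53 (mert mert_pos)

/-- the weight of `m` -/
noncomputable def wt (z : ℕ → ℕ) (m : ℕ) : ℝ :=
  if m.Coprime (primorial (z m)) then mert (z m) else 0

theorem wt_nonneg (z : ℕ → ℕ) (m : ℕ) : 0 ≤ wt z m := by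
  unfold wt
  split_ifs
  · exact (mert_pos _).le
  · exact le_rfl

theorem split_at {z : ℕ → ℕ} (hz : Monotone z) (t u v : ℕ) (huv : u ≤ v) :
    ∃ b, u ≤ b ∧ b ≤ v ∧ (∀ m, u ≤ m → m < b → z m < t) ∧ (∀ m, b ≤ m → m < v → t ≤ z m) := by
  classical
  by_cases h : ∃ m, u ≤ m ∧ m < v ∧ t ≤ z m
  · refine ⟨Nat.find h, (Nat.find_spec h).1, (Nat.find_spec h).2.1.le, fun m h1 h2 => ?_,
      fun m h1 _ => (Nat.find_spec h).2.2.trans (hz h1)⟩
    by_contra h3
    exact Nat.find_min h h2 ⟨h1, h2.trans (Nat.find_spec h).2.1, not_lt.1 h3⟩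
  · push Not at h
    exact ⟨v, huv, le_rfl, fun m h1 h2 => h m h1 h2, fun m h1 h2 => absurd h2 (not_lt.2 h1)⟩

theorem piece {z : ℕ → ℕ} {t b v : ℕ} (hbv : b ≤ v) (h : ∀ m, b ≤ m → m < v → z m = t) :
    |∑ m ∈ Finset.Ico b v, wt z m - ((v : ℝ) - b)| ≤ mert t * primorial t := by
  have h1 : ∑ m ∈ Finset.Ico b v, wt z m =
      mert t * (((Finset.Ico b v).filter (fun m => m.Coprime (primorial t))).card : ℝ) := by
    rw [Finset.card_filter]
    push_cast
    rw [Finset.mul_sum]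
    refine Finset.sum_congr rfl fun m hm => ?_
    rw [Finset.mem_Ico] at hm
    unfold wt
    rw [h m hm.1 hm.2]
    split_ifs <;> simp
  have h2 := Pool.Agent.RG88.cop_count t hbv
  have hM := mert_pos t
  rw [h1]
  have h3 : mert t * (((Finset.Ico b v).filter (fun m => m.Coprime (primorial t))).card : ℝ) -
      ((v : ℝ) - b) = mert t *
      ((((Finset.Ico b v).filter (fun m => m.Coprime (primorial t))).card : ℝ) -
        ((v : ℝ) - b) / mert t) := by
    rw [mul_sub, mul_div_cancel₀ _ hM.ne']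
  rw [h3, abs_mul, abs_of_pos hM]
  exact mul_le_mul_of_nonneg_left h2 hM.le

theorem tot {z : ℕ → ℕ} (hz : Monotone z) {C : ℝ} {T : ℕ}
    (hC : ∀ w, w < T → mert w * primorial w ≤ C) : ∀ t ≤ T, ∀ u v : ℕ, u ≤ v →
    (∀ m, u ≤ m → m < v → z m < t) →
    |∑ m ∈ Finset.Ico u v, wt z m - ((v : ℝ) - u)| ≤ t * C := by
  intro t
  induction t with
  | zero =>
    intro _ u v huv h
    have : u = v := by
      rcases Nat.eq_or_lt_of_le huv with h1 | h1
      · exact h1
      · exact absurd (h u le_rfl h1) (by omega)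
    rw [this]
    simp
  | succ t ih =>
    intro htT u v huv h
    obtain ⟨b, hub, hbv, h1, h2⟩ := split_at hz t u v huv
    have h3 := ih (by omega) u b hub h1
    have h4 := (piece hbv (fun m hm1 hm2 => by
      have := h2 m hm1 hm2
      have := h m (hub.trans hm1) hm2
      omega : ∀ m, b ≤ m → m < v → z m = t)).trans (hC t (by omega))
    rw [← Finset.sum_Ico_consecutive _ hub hbv]
    rw [abs_le] at h3 h4 ⊢
    push_cast
    constructor <;> linarith [h3.1, h3.2, h4.1, h4.2]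

theorem ev_pow (C : ℝ) (k : ℕ) : ∀ᶠ q : ℕ in atTop, C * ((q : ℝ) + 1) ^ k ≤ 2 ^ q := by
  have h1 := (tendsto_add_atTop_iff_nat 1).2
    (tendsto_pow_const_div_const_pow_of_one_lt k (by norm_num : (1 : ℝ) < 2))
  have hC : 0 < |C| + 1 := by positivity
  have h2 : (0 : ℝ) < 1 / (2 * (|C| + 1)) := by positivity
  filter_upwards [h1.eventually_lt_const h2] with q hq
  have h3 : (0 : ℝ) < 2 ^ (q + 1) := by positivity
  rw [div_lt_div_iff₀ h3 (by positivity)] at hq
  push_cast at hq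
  have h4 : C ≤ |C| + 1 := (le_abs_self C).trans (by linarith)
  have h5 : (0 : ℝ) ≤ ((q : ℝ) + 1) ^ k := by positivity
  have h6 := mul_le_mul_of_nonneg_right h4 h5
  rw [pow_succ] at hq
  nlinarith

theorem growth : ∀ᶠ f : ℕ in atTop, 2 * (f : ℝ) ^ 2 * (f : ℝ) ^ 3 ≤ 2 ^ (f / 8) := by
  have h3 : Tendsto (fun f : ℕ => f / 8) atTop atTop := Nat.tendsto_div_const_atTop (by norm_num)
  filter_upwards [h3.eventually (ev_pow (2 * 8 ^ 5) 5)] with f hf
  have h8 : (f : ℝ) ≤ 8 * (((f / 8 : ℕ) : ℝ) + 1) := by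
    have : f ≤ 8 * (f / 8 + 1) := by omega
    exact_mod_cast this
  have h9 := pow_le_pow_left₀ (Nat.cast_nonneg f) h8 5
  rw [mul_pow] at h9
  calc 2 * (f : ℝ) ^ 2 * (f : ℝ) ^ 3 = 2 * (f : ℝ) ^ 5 := by ring
    _ ≤ 2 * 8 ^ 5 * (((f / 8 : ℕ) : ℝ) + 1) ^ 5 := by linarith
    _ ≤ 2 ^ (f / 8) := hf

theorem mean_z {z : ℕ → ℕ} (hz : Adm z) (hpar : ∀ᶠ f : ℕ in atTop,
      10 * primorial (zt z f) ≤ f ∧ (zt z f : ℝ) + 1 ≤ Real.log f ∧
        mert (zt z f) ≤ Real.log f) : ∀ᶠ f : ℕ in atTop, ∀ u v : ℕ, u < v →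
    v ≤ 2 ^ (1000 * f) → 2 ^ (f / 8) ≤ u → 2 ^ (f / 8) ≤ v - u →
    (1 - 1 / (2 * (f : ℝ) ^ 2)) * (((v : ℝ) - u) / Real.log v) ≤ ∑ m ∈ Finset.Ico u v, pz z m ∧
      ∑ m ∈ Finset.Ico u v, pz z m ≤
        (1 + 1 / (2 * (f : ℝ) ^ 2)) * (((v : ℝ) - u) / Real.log u) := by
  filter_upwards [growth, hpar, eventually_ge_atTop 16] with f hg hp hf16
  intro u v huv hvf hu hv
  obtain ⟨hp1, hp2, hp3⟩ := hp
  have hfN : 0 < f := by omega
  have hf : (0 : ℝ) < f := by exact_mod_cast hfN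
  have hf1 : (1 : ℝ) ≤ f := by exact_mod_cast hfN
  have hL3 : 3 ≤ 2 ^ (f / 8) := by
    have : 2 ≤ f / 8 := by omega
    calc 3 ≤ 2 ^ 2 := by norm_num
      _ ≤ 2 ^ (f / 8) := Nat.pow_le_pow_right (by norm_num) this
  have hu3 : 3 ≤ u := hL3.trans hu
  have huR : (3 : ℝ) ≤ u := by exact_mod_cast hu3
  have huvR : (u : ℝ) < v := by exact_mod_cast huv
  have hd : (2 : ℝ) ^ (f / 8) ≤ (v : ℝ) - u := by
    have : ((2 ^ (f / 8) : ℕ) : ℝ) ≤ ((v - u : ℕ) : ℝ) := by exact_mod_cast hv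
    rw [Nat.cast_sub huv.le] at this
    push_cast at this
    exact this
  have hlogf : Real.log f ≤ f := (Real.log_le_sub_one_of_pos hf).trans (by linarith)
  have hfu : (f : ℝ) ≤ u := by
    have h1 : (2 : ℝ) ^ (f / 8) ≤ u := by exact_mod_cast hu
    have h2 : (f : ℝ) ≤ 2 * (f : ℝ) ^ 2 * (f : ℝ) ^ 3 := by
      have h3 : (1 : ℝ) ≤ (f : ℝ) ^ 4 := one_le_pow₀ hf1
      nlinarith [pow_nonneg hf.le 4]
    linarith
  have hlogL : mert (zt z f) ≤ Real.log u := hp3.trans (Real.log_le_log hf hfu)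
  have hM0 := mert_pos (zt z f)
  have hlu : 0 < Real.log u := by linarith
  have hlv : 0 < Real.log v := hlu.trans_le (Real.log_le_log (by linarith) huvR.le)
  have hterm : ∀ m ∈ Finset.Ico u v, pz z m = wt z m / Real.log m := by
    intro m hm
    rw [Finset.mem_Ico] at hm
    have hmu : (u : ℝ) ≤ m := by exact_mod_cast hm.1
    have hzm : z m ≤ zt z f := hz.1 (hm.2.le.trans hvf)
    have h1 : mert (z m) ≤ Real.log m :=
      ((mert_mono hzm).trans hlogL).trans (Real.log_le_log (by linarith) hmu)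
    have h2 := Pool.Agent.RG88.pz_eq (z := z m) (hu3.trans hm.1) h1
    unfold pz wt
    rw [h2]
    split_ifs
    · rfl
    · rw [zero_div]
  have htot := tot hz.1 (C := mert (zt z f) * primorial (zt z f)) (T := zt z f + 1)
    (fun w hw => mul_le_mul (mert_mono (by omega))
      (by exact_mod_cast Nat.le_of_dvd (primorial_pos _) (primorial_dvd (by omega)))
      (Nat.cast_nonneg _) hM0.le) (zt z f + 1) le_rfl u v huv.le
    (fun m _ h2 => Nat.lt_succ_of_le (hz.1 (h2.le.trans hvf)))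
  have herr : ((zt z f + 1 : ℕ) : ℝ) * (mert (zt z f) * primorial (zt z f)) ≤
      1 / (2 * (f : ℝ) ^ 2) * ((v : ℝ) - u) := by
    have e1 : ((zt z f + 1 : ℕ) : ℝ) ≤ f := by push_cast; linarith
    have e2 : mert (zt z f) ≤ f := hp3.trans hlogf
    have e3 : (primorial (zt z f) : ℝ) ≤ f := by
      have : primorial (zt z f) ≤ f := by omega
      exact_mod_cast this
    have e4 : mert (zt z f) * primorial (zt z f) ≤ f * f :=
      mul_le_mul e2 e3 (Nat.cast_nonneg _) hf.le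
    have e5 : ((zt z f + 1 : ℕ) : ℝ) * (mert (zt z f) * primorial (zt z f)) ≤ f * (f * f) :=
      mul_le_mul e1 e4 (mul_nonneg hM0.le (Nat.cast_nonneg _)) hf.le
    refine e5.trans ?_
    rw [one_div, inv_mul_eq_div, le_div_iff₀ (by positivity)]
    calc (f : ℝ) * (f * f) * (2 * (f : ℝ) ^ 2) = 2 * (f : ℝ) ^ 2 * (f : ℝ) ^ 3 := by ring
      _ ≤ 2 ^ (f / 8) := hg
      _ ≤ (v : ℝ) - u := hd
  have htot' := abs_le.1 (htot.trans herr)
  rw [Finset.sum_congr rfl hterm]
  constructor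
  · have h5 : (∑ m ∈ Finset.Ico u v, wt z m) / Real.log v ≤
        ∑ m ∈ Finset.Ico u v, wt z m / Real.log m := by
      rw [Finset.sum_div]
      refine Finset.sum_le_sum fun m hm => ?_
      rw [Finset.mem_Ico] at hm
      have hmu : (u : ℝ) ≤ m := by exact_mod_cast hm.1
      have hmv : (m : ℝ) ≤ v := by exact_mod_cast hm.2.le
      have hlm : 0 < Real.log m := hlu.trans_le (Real.log_le_log (by linarith) hmu)
      exact div_le_div_of_nonneg_left (wt_nonneg z m) hlm (Real.log_le_log (by linarith) hmv)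
    refine le_trans ?_ h5
    rw [mul_div_assoc', div_le_div_iff_of_pos_right hlv]
    linarith [htot'.1]
  · have h5 : ∑ m ∈ Finset.Ico u v, wt z m / Real.log m ≤
        (∑ m ∈ Finset.Ico u v, wt z m) / Real.log u := by
      rw [Finset.sum_div]
      refine Finset.sum_le_sum fun m hm => ?_
      rw [Finset.mem_Ico] at hm
      have hmu : (u : ℝ) ≤ m := by exact_mod_cast hm.1
      exact div_le_div_of_nonneg_left (wt_nonneg z m) hlu (Real.log_le_log (by linarith) hmu)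
    refine h5.trans ?_
    rw [mul_div_assoc', div_le_div_iff_of_pos_right hlu]
    linarith [htot'.2]

end Pool.Agent.RH88.S34
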