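import Pool.Agent.RH88.Par
import Pool.Agent.RG88.CopCnt
import Pool.Agent.RG88.Mean

/-!
# The mean number of elements in an interval, growing sieving limit (proof)
-/

set_option autoImplicit false

namespace Pool.Agent.RH88

open MeasureTheory Filter Pool.Agent.GM53 Pool.Agent.RS88
open Pool.Agent.RG88 (Tz Gz Rt Rg Kz Badz)

theorem mean_piece46 {z : ℕ → ℕ} (hz : Monotone z) {C : ℝ} {ζ : ℕ}
    (hC : ∀ w ≤ ζ, mert w * primorial w ≤ C) (k : ℕ) (hk : k ≤ ζ + 1) :
    ∀ u v : ℕ, u ≤ v → (∀ m, u ≤ m → m < v → z m < k) →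
      |(∑ m ∈ Finset.Ico u v, if m.Coprime (primorial (z m)) then mert (z m) else 0) -
        ((v : ℝ) - u)| ≤ k * C := by
  induction k with
  | zero =>
    intro u v huv h
    have huv' : u = v := by
      by_contra hne
      exact absurd (h u le_rfl (by omega)) (by omega)
    subst huv'
    simp
  | succ k ih =>
    intro u v huv h
    have hex : ∃ a, v ≤ a ∨ (u ≤ a ∧ k ≤ z a) := ⟨v, Or.inl le_rfl⟩
    classical
    obtain ⟨a, hav, hua, hlow, hhigh⟩ : ∃ a, a ≤ v ∧ u ≤ a ∧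
        (∀ m, u ≤ m → m < a → z m < k) ∧ (∀ m, a ≤ m → m < v → k ≤ z m) := by
      refine ⟨Nat.find hex, Nat.find_min' hex (Or.inl le_rfl), ?_, ?_, ?_⟩
      · rcases Nat.find_spec hex with h1 | h1
        · exact huv.trans h1
        · exact h1.1
      · intro m h1 h2
        have h3 := Nat.find_min hex h2
        push Not at h3
        exact h3.2 h1
      · intro m h1 h2
        rcases Nat.find_spec hex with h3 | h3
        · omega
        · exact h3.2.trans (hz h1)
    have h1 := ih (by omega) u a hua hlow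
    have hM0 : 0 < mert k := mert_pos k
    have h2 : ∑ m ∈ Finset.Ico a v, (if m.Coprime (primorial (z m)) then mert (z m) else 0) =
        (((Finset.Ico a v).filter (fun m => m.Coprime (primorial k))).card : ℝ) * mert k := by
      rw [← nsmul_eq_mul, ← Finset.sum_const, Finset.sum_filter]
      refine Finset.sum_congr rfl fun m hm => ?_
      rw [Finset.mem_Ico] at hm
      have h3 : z m = k := by
        have := hhigh m hm.1 hm.2
        have := h m (hua.trans hm.1) hm.2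
        omega
      rw [h3]
    have h3 := Pool.Agent.RG88.cop_count k hav
    obtain ⟨h4, h5⟩ := abs_le.1 h3
    obtain ⟨h6, h7⟩ := abs_le.1 h1
    have h8 := hC k (by omega)
    rw [← Finset.sum_Ico_consecutive _ hua hav, h2]
    obtain ⟨N, hN⟩ : ∃ N : ℝ, N = (((Finset.Ico a v).filter
      (fun m => m.Coprime (primorial k))).card : ℝ) := ⟨_, rfl⟩
    rw [← hN] at h4 h5 ⊢
    have h9 : N * mert k ≤ ((v : ℝ) - a) + mert k * primorial k := by
      have h10 : N ≤ ((v : ℝ) - a) / mert k + primorial k := by linarith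
      have h11 := mul_le_mul_of_nonneg_left h10 hM0.le
      rw [mul_add, mul_div_cancel₀ _ hM0.ne'] at h11
      linarith
    have h12 : ((v : ℝ) - a) - mert k * primorial k ≤ N * mert k := by
      have h10 : ((v : ℝ) - a) / mert k - primorial k ≤ N := by linarith
      have h11 := mul_le_mul_of_nonneg_left h10 hM0.le
      rw [mul_sub, mul_div_cancel₀ _ hM0.ne'] at h11
      linarith
    rw [abs_le]
    push_cast
    constructor
    · linarith
    · linarith

theorem mean_growth46 : ∀ᶠ f : ℕ in atTop, 2 * (f : ℝ) ^ 5 ≤ 2 ^ (f / 8) := by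
  have h1 : Tendsto (fun n : ℕ => (n : ℝ) ^ 5 / (2 : ℝ) ^ n) atTop (nhds 0) :=
    tendsto_pow_const_div_const_pow_of_one_lt 5 (by norm_num)
  have h2 : ∀ᶠ n : ℕ in atTop, (n : ℝ) ^ 5 / (2 : ℝ) ^ n < 1 / 2097152 :=
    h1.eventually (gt_mem_nhds (by positivity))
  have h3 : Tendsto (fun f : ℕ => f / 8) atTop atTop := Nat.tendsto_div_const_atTop (by norm_num)
  have h4 := h3.eventually (h2.and (eventually_ge_atTop 1))
  filter_upwards [h4] with f hf
  obtain ⟨h5, h6⟩ := hf
  have h7 : (1 : ℝ) ≤ ((f / 8 : ℕ) : ℝ) := by exact_mod_cast h6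
  have h8 : (f : ℝ) ≤ 8 * ((f / 8 : ℕ) : ℝ) + 8 := by
    have : f ≤ 8 * (f / 8) + 8 := by omega
    exact_mod_cast this
  have h9 : (f : ℝ) ≤ 16 * ((f / 8 : ℕ) : ℝ) := by linarith
  have h10 : (f : ℝ) ^ 5 ≤ (16 * ((f / 8 : ℕ) : ℝ)) ^ 5 :=
    pow_le_pow_left₀ (Nat.cast_nonneg f) h9 5
  rw [div_lt_div_iff₀ (by positivity) (by positivity)] at h5
  nlinarith

theorem mean_z46 {z : ℕ → ℕ} (hz : Adm z) : ∀ᶠ f : ℕ in atTop, ∀ u v : ℕ, u < v →
    v ≤ 2 ^ (1000 * f) → 2 ^ (f / 8) ≤ u → 2 ^ (f / 8) ≤ v - u →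
    (1 - 1 / (2 * (f : ℝ) ^ 2)) * (((v : ℝ) - u) / Real.log v) ≤ ∑ m ∈ Finset.Ico u v, pz z m ∧
      ∑ m ∈ Finset.Ico u v, pz z m ≤
        (1 + 1 / (2 * (f : ℝ) ^ 2)) * (((v : ℝ) - u) / Real.log u) := by
  filter_upwards [par hz, mean_growth46, eventually_ge_atTop 16] with f hpar hg hf16
  intro u v huv hvf hu hv
  obtain ⟨hp1, hp2, hp3⟩ := hpar
  have hmono := hz.1
  have hf16' : (16 : ℝ) ≤ f := by exact_mod_cast hf16
  have hf : (0 : ℝ) < f := by linarith
  have hlogf : Real.log f ≤ f := (Real.log_le_sub_one_of_pos hf).trans (by linarith)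
  have hL3 : 3 ≤ 2 ^ (f / 8) := by
    have : 2 ≤ f / 8 := by omega
    calc 3 ≤ 2 ^ 2 := by norm_num
      _ ≤ 2 ^ (f / 8) := Nat.pow_le_pow_right (by norm_num) this
  have hu3 : 3 ≤ u := hL3.trans hu
  have huR : (3 : ℝ) ≤ u := by exact_mod_cast hu3
  have huvR : (u : ℝ) < v := by exact_mod_cast huv
  have hu2 : (2 : ℝ) ^ (f / 8) ≤ u := by exact_mod_cast hu
  have hd : (2 : ℝ) ^ (f / 8) ≤ (v : ℝ) - u := by
    have : ((2 ^ (f / 8) : ℕ) : ℝ) ≤ ((v - u : ℕ) : ℝ) := by exact_mod_cast hv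
    rw [Nat.cast_sub huv.le] at this
    push_cast at this
    exact this
  have hfu : (f : ℝ) ≤ u := by
    have h1 : (1 : ℝ) ≤ (f : ℝ) ^ 4 := one_le_pow₀ (by linarith)
    have h2 : (f : ℝ) ^ 5 = (f : ℝ) ^ 4 * f := by ring
    nlinarith
  have hlfu : Real.log f ≤ Real.log u := Real.log_le_log hf hfu
  have hMζ : ∀ m, m < v → mert (z m) ≤ mert (zt z f) := fun m hm =>
    mert_mono (hmono (hm.le.trans hvf))
  have hlu : 0 < Real.log u := Real.log_pos (by linarith)
  have hlv : 0 < Real.log v := hlu.trans_le (Real.log_le_log (by linarith) huvR.le)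
  obtain ⟨g, hg'⟩ : ∃ g : ℕ → ℝ, g = fun m =>
    if m.Coprime (primorial (z m)) then mert (z m) else 0 := ⟨_, rfl⟩
  have hg0 : ∀ m, 0 ≤ g m := by
    intro m
    rw [hg']
    show 0 ≤ (if m.Coprime (primorial (z m)) then mert (z m) else 0)
    split_ifs
    · exact (mert_pos _).le
    · exact le_rfl
  have hpz : ∀ m, u ≤ m → m < v → pz z m = g m / Real.log m := by
    intro m hm1 hm2
    have hmu : (u : ℝ) ≤ m := by exact_mod_cast hm1
    unfold pz
    rw [Pool.Agent.RG88.pz_eq (hu3.trans hm1) (((hMζ m hm2).trans hp3).trans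
      (hlfu.trans (Real.log_le_log (by linarith) hmu))), hg']
    show _ = (if m.Coprime (primorial (z m)) then mert (z m) else 0) / Real.log m
    split_ifs
    · rfl
    · simp
  -- the error
  obtain ⟨C, hCdef⟩ : ∃ C : ℝ, C = mert (zt z f) * primorial (zt z f) := ⟨_, rfl⟩
  have hC : ∀ w ≤ zt z f, mert w * primorial w ≤ C := by
    intro w hw
    rw [hCdef]
    have h1 : (primorial w : ℝ) ≤ primorial (zt z f) := by
      exact_mod_cast Nat.le_of_dvd (primorial_pos _) (primorial_dvd hw)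
    exact mul_le_mul (mert_mono hw) h1 (Nat.cast_nonneg _) (mert_pos _).le
  have hpc := mean_piece46 hmono hC (zt z f + 1) le_rfl u v huv.le (fun m _ hm2 =>
    Nat.lt_succ_of_le (hmono (hm2.le.trans hvf)))
  have herr : ((zt z f + 1 : ℕ) : ℝ) * C ≤ 1 / (2 * (f : ℝ) ^ 2) * ((v : ℝ) - u) := by
    have h1 : (primorial (zt z f) : ℝ) ≤ f := by
      have : (10 : ℝ) * primorial (zt z f) ≤ f := by exact_mod_cast hp1
      have h0 : (0 : ℝ) ≤ primorial (zt z f) := Nat.cast_nonneg _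
      linarith
    have h2 : C ≤ f * f := by
      rw [hCdef]
      exact mul_le_mul (hp3.trans hlogf) h1 (Nat.cast_nonneg _) hf.le
    have h3 : ((zt z f + 1 : ℕ) : ℝ) ≤ f := by
      push_cast
      exact hp2.trans hlogf
    have hC0 : 0 ≤ C := by
      rw [hCdef]
      exact mul_nonneg (mert_pos _).le (Nat.cast_nonneg _)
    have h4 : ((zt z f + 1 : ℕ) : ℝ) * C ≤ f * (f * f) :=
      mul_le_mul h3 h2 hC0 hf.le
    have h5 : (f : ℝ) * (f * f) ≤ 1 / (2 * (f : ℝ) ^ 2) * ((v : ℝ) - u) := by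
      rw [one_div, inv_mul_eq_div, le_div_iff₀ (by positivity)]
      have h6 : (f : ℝ) * (f * f) * (2 * (f : ℝ) ^ 2) = 2 * (f : ℝ) ^ 5 := by ring
      rw [h6]
      linarith
    exact h4.trans h5
  obtain ⟨h6, h7⟩ := abs_le.1 hpc
  have hgs : (∑ m ∈ Finset.Ico u v, if m.Coprime (primorial (z m)) then mert (z m) else 0) =
      ∑ m ∈ Finset.Ico u v, g m := by rw [hg']
  rw [hgs] at h6 h7
  constructor
  · have h8 : (∑ m ∈ Finset.Ico u v, g m) / Real.log v ≤ ∑ m ∈ Finset.Ico u v, pz z m := by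
      rw [Finset.sum_div]
      refine Finset.sum_le_sum fun m hm => ?_
      rw [Finset.mem_Ico] at hm
      have hmu : (u : ℝ) ≤ m := by exact_mod_cast hm.1
      have hmv : (m : ℝ) ≤ v := by exact_mod_cast hm.2.le
      have hlm : 0 < Real.log m := hlu.trans_le (Real.log_le_log (by linarith) hmu)
      rw [hpz m hm.1 hm.2]
      exact div_le_div_of_nonneg_left (hg0 m) hlm (Real.log_le_log (by linarith) hmv)
    refine le_trans ?_ h8
    rw [mul_div_assoc', div_le_div_iff_of_pos_right hlv]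
    linarith
  · have h8 : ∑ m ∈ Finset.Ico u v, pz z m ≤ (∑ m ∈ Finset.Ico u v, g m) / Real.log u := by
      rw [Finset.sum_div]
      refine Finset.sum_le_sum fun m hm => ?_
      rw [Finset.mem_Ico] at hm
      have hmu : (u : ℝ) ≤ m := by exact_mod_cast hm.1
      rw [hpz m hm.1 hm.2]
      exact div_le_div_of_nonneg_left (hg0 m) hlu (Real.log_le_log (by linarith) hmu)
    refine h8.trans ?_
    rw [mul_div_assoc', div_le_div_iff_of_pos_right hlu]
    linarith

end Pool.Agent.RH88
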