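import Pool.Agent.RH88.Par
import Pool.Agent.RH88.DepM
import Pool.Agent.RS88.FillB
import Pool.Agent.RS88.Main

/-!
# The large summand: conditional probability of the good pattern (own file of helper26)
-/

set_option autoImplicit false

namespace Pool.Agent.RH88

open MeasureTheory Filter Pool.Agent.RS88
open Pool.Agent.RG88 (Tz Gz Rt Rg Kz Badz)

theorem dep_mono26 {S T : Finset ℕ} (h : S ⊆ T) {E : Set (ℕ → Bool)}
    (hE : Dep (S : Set ℕ) E) : Dep (T : Set ℕ) E := by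
  intro ω ω' h1
  exact hE ω ω' fun i hi => h1 i (Finset.coe_subset.2 h hi)

theorem shift26 {P : ℕ} (hP : 0 < P) (y r : ℕ) (hr : r < P) : ∃ i, i < P ∧ (y + i) % P = r := by
  refine ⟨(r + (P - y % P)) % P, Nat.mod_lt _ hP, ?_⟩
  rw [Nat.add_mod_mod]
  have h1 := Nat.mod_add_div y P
  have h2 := Nat.mod_lt y hP
  have h3 : y + (r + (P - y % P)) = r + P * (y / P + 1) := by
    rw [mul_add, mul_one]
    omega
  rw [h3, Nat.add_mul_mod_self_left, Nat.mod_eq_of_lt hr]

theorem exp26 {δ : ℝ} (h0 : 0 ≤ δ) (h1 : δ ≤ 1 / 2) : Real.exp (-(2 * δ)) ≤ 1 - δ := by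
  have h2 : 2 * δ + 1 ≤ Real.exp (2 * δ) := Real.add_one_le_exp _
  rw [Real.exp_neg, inv_le_comm₀ (Real.exp_pos _) (by linarith)]
  refine le_trans ?_ h2
  rw [inv_le_iff_one_le_mul₀ (by linarith)]
  nlinarith

theorem le26 {n f : ℕ} (h : 2 ^ (320 * f) ≤ n) : f ≤ n := by
  have h1 : f < 2 ^ f := Nat.lt_two_pow_self
  have h2 : 2 ^ f ≤ 2 ^ (320 * f) := Nat.pow_le_pow_right (by norm_num) (by omega)
  exact (h1.le.trans h2).trans h

theorem log26 {n f : ℕ} (h : 2 ^ (320 * f) ≤ n) : 220 * (f : ℝ) ≤ Real.log (n : ℝ) := by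
  have h1 : Real.log ((2 : ℝ) ^ (320 * f)) ≤ Real.log (n : ℝ) := by
    apply Real.log_le_log (by positivity)
    exact_mod_cast h
  rw [Real.log_pow] at h1
  clear h
  push_cast at h1
  have h2 := Real.log_two_gt_d9
  have h3 : (0 : ℝ) ≤ f := by positivity
  nlinarith

theorem sq26 {n P : ℕ} (hP : P ≤ n) (hn : 3 ≤ n) : n ^ 2 + P ≤ 2 * n ^ 2 := by nlinarith

theorem pow26 {n f P : ℕ} (h : n < 2 ^ (320 * (f + 1))) (hP : P ≤ n) (hn : 3 ≤ n) (hf : 2 ≤ f) :
    n ^ 2 + P ≤ 2 ^ (1000 * f) := by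
  have h1 : n ^ 2 ≤ (2 ^ (320 * (f + 1))) ^ 2 := Nat.pow_le_pow_left h.le 2
  have h2 : n ^ 2 + P ≤ 2 * n ^ 2 := sq26 hP hn
  calc n ^ 2 + P ≤ 2 * n ^ 2 := h2
    _ ≤ 2 * (2 ^ (320 * (f + 1))) ^ 2 := Nat.mul_le_mul_left 2 h1
    _ = 2 ^ (320 * (f + 1) * 2 + 1) := by rw [← pow_mul, pow_succ, mul_comm]
    _ ≤ 2 ^ (1000 * f) := Nat.pow_le_pow_right (by norm_num) (by clear h h1 h2; omega)

theorem rg_pr26 {z : ℕ → ℕ} (hz : Adm z) : ∀ᶠ n : ℕ in atTop, ∀ (c : ℕ → ℕ),
    (∀ k, c k < primorial (zt z (Main_F n)) ∧ (c k).Coprime (primorial (zt z (Main_F n)))) →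
    ∀ y : ℕ, n < y → y < n ^ 2 →
    ∀ E : Set (ℕ → Bool), Dep ((Finset.range y : Finset ℕ) : Set ℕ) E →
    1 / (Real.log n) ^ 2 * (mz z).real E ≤
      (mz z).real (E ∩ {ω | Rg (primorial (zt z (Main_F n))) c ω y}) := by
  filter_upwards [Main_tend.eventually (par hz), Main_tend.eventually (eventually_ge_atTop 2),
    eventually_ge_atTop 3] with n hpar hf2 hn3
  intro c hc y hy1 hy2 E hE
  obtain ⟨f, hf⟩ : ∃ f, f = Main_F n := ⟨_, rfl⟩
  rw [← hf] at hpar hf2 hc ⊢
  obtain ⟨P, hPd⟩ : ∃ P, P = primorial (zt z f) := ⟨_, rfl⟩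
  obtain ⟨μ, hμ⟩ : ∃ μ : ℝ, μ = Pool.Agent.GM53.mert (zt z f) := ⟨_, rfl⟩
  have hP0 : 0 < P := by rw [hPd]; exact primorial_pos _
  have hP1 : (1 : ℝ) ≤ P := by exact_mod_cast hP0
  have hμ0 : 0 < μ := by rw [hμ]; exact Pool.Agent.GM53.mert_pos _
  rw [← hPd, ← hμ] at hpar
  rw [← hPd] at hc ⊢
  obtain ⟨hp1, hp2, hp3⟩ := hpar
  have hfn : f ≤ n := by
    rw [hf]
    exact le26 (Main_lo (by omega))
  have hnP : P ≤ n := by omega
  obtain ⟨l, hl⟩ : ∃ l : ℝ, l = Real.log (n : ℝ) := ⟨_, rfl⟩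
  have hn0 : (0 : ℝ) < n := by
    have : 0 < n := by omega
    exact_mod_cast this
  have hf2' : (2 : ℝ) ≤ f := by exact_mod_cast hf2
  have hl220 : 220 * (f : ℝ) ≤ l := by
    rw [hl, hf]
    exact log26 (Main_lo (by omega))
  rw [← hl]
  have hl0 : 0 < l := by linarith
  have hlf0 : 0 ≤ Real.log (f : ℝ) := Real.log_nonneg (by linarith)
  have hlf1 : Real.log (f : ℝ) ≤ f := by
    have := Real.log_le_sub_one_of_pos (show (0 : ℝ) < f by linarith)
    linarith
  have hn2000 : n ^ 2 + P ≤ 2 ^ (1000 * f) := by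
    have h1 := Main_hi n
    rw [← hf] at h1
    exact pow26 h1 hnP hn3 hf2
  -- the product
  obtain ⟨δ, hδ⟩ : ∃ δ : ℝ, δ = μ / l := ⟨_, rfl⟩
  have hδ0 : 0 < δ := by rw [hδ]; positivity
  have hδ1 : δ ≤ 1 / 2 := by
    rw [hδ, div_le_iff₀ hl0]
    linarith
  have hp1' : 10 * (P : ℝ) ≤ f := by exact_mod_cast hp1
  have hPδ : 2 * ((P : ℝ) * δ) ≤ Real.log (f : ℝ) := by
    rw [hδ, ← mul_div_assoc, ← mul_div_assoc, div_le_iff₀ hl0]
    have h1 : 2 * (P : ℝ) ≤ l := by linarith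
    nlinarith
  have hpz : ∀ t, y ≤ t → t ≤ 2 ^ (1000 * f) → pz z t ≤ δ := by
    intro t ht ht2
    refine (pz_up hz.1 (by omega) ht2).trans ?_
    rw [← hμ, hδ]
    apply div_le_div_of_nonneg_left hμ0.le hl0
    rw [hl]
    apply Real.log_le_log hn0
    have : n ≤ t := by omega
    exact_mod_cast this
  have hprod : ∀ i < P, 1 / (f : ℝ) ≤ ∏ t ∈ Finset.Ico y (y + i), (1 - pz z t) := by
    intro i hi
    have h1 : (1 - δ) ^ i ≤ ∏ t ∈ Finset.Ico y (y + i), (1 - pz z t) := by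
      calc (1 - δ) ^ i = ∏ _t ∈ Finset.Ico y (y + i), (1 - δ) := by
            rw [Finset.prod_const, Nat.card_Ico, Nat.add_sub_cancel_left]
        _ ≤ _ := Finset.prod_le_prod (fun _ _ => by linarith) fun t ht => by
            rw [Finset.mem_Ico] at ht
            have := hpz t ht.1 (by omega)
            linarith
    have h2 : (Real.exp (-(2 * δ))) ^ i ≤ (1 - δ) ^ i :=
      pow_le_pow_left₀ (Real.exp_pos _).le (exp26 hδ0.le hδ1) i
    have h3 : (Real.exp (-(2 * δ))) ^ i = Real.exp (-(2 * (i * δ))) := by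
      rw [← Real.exp_nat_mul]
      congr 1
      ring
    have h4 : (i : ℝ) * δ ≤ P * δ := by
      apply mul_le_mul_of_nonneg_right _ hδ0.le
      exact_mod_cast hi.le
    have h5 : 1 / (f : ℝ) = Real.exp (-Real.log (f : ℝ)) := by
      rw [Real.exp_neg, Real.exp_log (by linarith), one_div]
    have h6 : Real.exp (-Real.log (f : ℝ)) ≤ Real.exp (-(2 * (i * δ))) := by
      apply Real.exp_le_exp.2
      linarith
    linarith
  have hpr : ∀ i < P, (y + i).Coprime P → 1 / (3 * l) ≤ pz z (y + i) := by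
    intro i hi hcop
    refine le_trans ?_ (pz_lo hz.1 (f := f) (by omega) (by omega) (by rw [← hPd]; exact hcop))
    have hyi : (0 : ℝ) < ((y + i : ℕ) : ℝ) := by
      have : 0 < y + i := by omega
      exact_mod_cast this
    have h1 : y + i ≤ n ^ 3 := by
      have h2 : n ^ 2 + n ≤ n ^ 3 := by nlinarith
      omega
    have h3 : Real.log ((y + i : ℕ) : ℝ) ≤ 3 * l := by
      have h4 : Real.log ((y + i : ℕ) : ℝ) ≤ Real.log ((n : ℝ) ^ 3) := by
        apply Real.log_le_log hyi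
        exact_mod_cast h1
      rw [Real.log_pow] at h4
      push_cast at h4
      rw [hl]
      push_cast
      exact h4
    have h5 : 0 < Real.log ((y + i : ℕ) : ℝ) := by
      apply Real.log_pos
      have : 1 < y + i := by omega
      exact_mod_cast this
    exact one_div_le_one_div_of_le h5 h3
  -- the pieces
  obtain ⟨Ei, hEi⟩ : ∃ Ei : ℕ → Set (ℕ → Bool),
      Ei = fun i => E ∩ {ω | (y + i) % P = c (ct ω y + 1)} := ⟨_, rfl⟩
  have hEid : ∀ i, Dep ((Finset.range y : Finset ℕ) : Set ℕ) (Ei i) := by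
    intro i ω ω' h
    have h1 := hE ω ω' h
    have h2 : ct ω y = ct ω' y := fillB_ct (V := y) (fun i hi => h i (by simpa using hi)) le_rfl
    rw [hEi]
    simp only [Set.mem_inter_iff, Set.mem_ofPred_eq, h1, h2]
  obtain ⟨A, hA⟩ : ∃ A : ℕ → Set (ℕ → Bool), A = fun i =>
      (Ei i ∩ {ω | ∀ t ∈ Finset.Ico y (y + i), ω t = false}) ∩ {ω | ω (y + i) = true} :=
    ⟨_, rfl⟩
  have hBd : ∀ i, Dep ((Finset.range (y + i) : Finset ℕ) : Set ℕ)
      (Ei i ∩ {ω | ∀ t ∈ Finset.Ico y (y + i), ω t = false}) := by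
    intro i ω ω' h
    have h1 := dep_mono26 (T := Finset.range (y + i)) (by
      intro a ha
      rw [Finset.mem_range] at ha ⊢
      omega) (hEid i) ω ω' h
    have h2 : (∀ t ∈ Finset.Ico y (y + i), ω t = false) ↔
        ∀ t ∈ Finset.Ico y (y + i), ω' t = false := by
      refine forall₂_congr fun t ht => ?_
      rw [h t (by
        rw [Finset.mem_Ico] at ht
        simp only [Finset.coe_range, Set.mem_Iio]
        omega)]
    simp only [Set.mem_inter_iff, Set.mem_ofPred_eq, h1, h2]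
  have hAd : ∀ i, Dep ((Finset.range (y + i + 1) : Finset ℕ) : Set ℕ) (A i) := by
    intro i ω ω' h
    have h1 := dep_mono26 (T := Finset.range (y + i + 1)) (by
      intro a ha
      rw [Finset.mem_range] at ha ⊢
      omega) (hBd i) ω ω' h
    have h2 := h (y + i) (by simp)
    rw [hA]
    simp only
    rw [Set.mem_inter_iff, Set.mem_inter_iff ω', h1, Set.mem_ofPred_eq, Set.mem_ofPred_eq, h2]
  have hAm : ∀ i, (mz z).real (A i) =
      (mz z).real (Ei i) * (∏ t ∈ Finset.Ico y (y + i), (1 - pz z t)) * pz z (y + i) := by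
    intro i
    rw [hA]
    simp only
    rw [dez_true z (hBd i) (by simp), dez_inter z (by
      rw [Finset.disjoint_left]
      intro a ha hb
      rw [Finset.mem_range] at ha
      rw [Finset.mem_Ico] at hb
      omega) (hEid i)]
  have hf0 : (0 : ℝ) < f := by linarith
  have hAlow : ∀ i ∈ Finset.range P, 1 / (3 * f * l) * (mz z).real (Ei i) ≤ (mz z).real (A i) := by
    intro i hi
    rw [Finset.mem_range] at hi
    by_cases hne : (Ei i).Nonempty
    · obtain ⟨ω, hω⟩ := hne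
      rw [hEi] at hω
      have h1 : (y + i) % P = c (ct ω y + 1) := hω.2
      have h2 : (y + i).Coprime P := by
        have h3 := (hc (ct ω y + 1)).2
        rw [← h1] at h3
        have h4 := Nat.gcd_rec P (y + i)
        unfold Nat.Coprime at h3 ⊢
        rw [Nat.gcd_comm, h4]
        exact h3
      rw [hAm]
      have h5 := hprod i hi
      have h6 := hpr i hi h2
      have h7 : 0 ≤ (mz z).real (Ei i) := measureReal_nonneg
      have h8 : 1 / (f : ℝ) * (1 / (3 * l)) ≤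
          (∏ t ∈ Finset.Ico y (y + i), (1 - pz z t)) * pz z (y + i) :=
        mul_le_mul h5 h6 (by positivity) (le_trans (by positivity) h5)
      have h9 : 1 / (f : ℝ) * (1 / (3 * l)) = 1 / (3 * f * l) := by
        field_simp
      rw [h9] at h8
      calc 1 / (3 * f * l) * (mz z).real (Ei i)
          ≤ ((∏ t ∈ Finset.Ico y (y + i), (1 - pz z t)) * pz z (y + i)) *
            (mz z).real (Ei i) := mul_le_mul_of_nonneg_right h8 h7
        _ = _ := by ring
    · rw [Set.not_nonempty_iff_eq_empty] at hne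
      rw [hne, measureReal_empty, mul_zero]
      exact measureReal_nonneg
  have hcov : E ⊆ ⋃ i ∈ Finset.range P, Ei i := by
    intro ω hω
    obtain ⟨i, hi, hi'⟩ := shift26 hP0 y (c (ct ω y + 1)) (hc _).1
    rw [Set.mem_iUnion₂]
    refine ⟨i, Finset.mem_range.2 hi, ?_⟩
    rw [hEi]
    exact ⟨hω, hi'⟩
  have hsubA : (⋃ i ∈ Finset.range P, A i) ⊆ E ∩ {ω | Rg P c ω y} := by
    intro ω hω
    rw [Set.mem_iUnion₂] at hω
    obtain ⟨i, hi, hω⟩ := hω
    rw [hA, hEi] at hω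
    obtain ⟨⟨⟨h1, h2⟩, h3⟩, h4⟩ := hω
    refine ⟨h1, i, Finset.mem_range.1 hi, h2, ?_, h4⟩
    intro i' hi'
    exact h3 (y + i') (by rw [Finset.mem_Ico]; omega)
  have hdisj : Set.PairwiseDisjoint (Finset.range P : Set ℕ) A := by
    intro i hi j hj hij
    rw [Finset.mem_coe, Finset.mem_range] at hi hj
    show Disjoint (A i) (A j)
    rw [Set.disjoint_left]
    intro ω h1 h2
    apply hij
    rw [hA, hEi] at h1 h2
    have e1 : (y + i) % P = c (ct ω y + 1) := h1.1.1.2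
    have e2 : (y + j) % P = c (ct ω y + 1) := h2.1.1.2
    have e3 : y + i ≡ y + j [MOD P] := e1.trans e2.symm
    have e4 := Nat.ModEq.add_left_cancel' y e3
    unfold Nat.ModEq at e4
    rwa [Nat.mod_eq_of_lt hi, Nat.mod_eq_of_lt hj] at e4
  have hsum : (mz z).real (⋃ i ∈ Finset.range P, A i) = ∑ i ∈ Finset.range P, (mz z).real (A i) :=
    measureReal_biUnion_finset hdisj (fun i _ => Dep.meas (hAd i))
  have h1 : (mz z).real E ≤ ∑ i ∈ Finset.range P, (mz z).real (Ei i) :=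
    (measureReal_mono hcov (measure_ne_top _ _)).trans (measureReal_biUnion_finset_le _ _)
  have h2 : 1 / (3 * f * l) * ∑ i ∈ Finset.range P, (mz z).real (Ei i) ≤
      ∑ i ∈ Finset.range P, (mz z).real (A i) := by
    rw [Finset.mul_sum]
    exact Finset.sum_le_sum hAlow
  have h3 : (mz z).real (⋃ i ∈ Finset.range P, A i) ≤
      (mz z).real (E ∩ {ω | Rg P c ω y}) := measureReal_mono hsubA
  have h4 : 1 / l ^ 2 ≤ 1 / (3 * f * l) := by
    apply one_div_le_one_div_of_le (by positivity)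
    nlinarith
  have h5 : 0 ≤ (mz z).real E := measureReal_nonneg
  calc 1 / l ^ 2 * (mz z).real E ≤ 1 / (3 * f * l) * (mz z).real E :=
        mul_le_mul_of_nonneg_right h4 h5
    _ ≤ 1 / (3 * f * l) * ∑ i ∈ Finset.range P, (mz z).real (Ei i) :=
        mul_le_mul_of_nonneg_left h1 (by positivity)
    _ ≤ ∑ i ∈ Finset.range P, (mz z).real (A i) := h2
    _ = (mz z).real (⋃ i ∈ Finset.range P, A i) := hsum.symm
    _ ≤ _ := h3

end Pool.Agent.RH88
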